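import Pool.Agent.Helper41.CE.FDefs
import Pool.Agent.Helper41.CE.TDefs

/-!
# Radial potentials: definitions for eigenvalue sums exceeding `ħ^{-d}`

Base library: `Pool.Agent.Helper41.CE` (`E d = EuclideanSpace ℝ (Fin d)`, `Graph V ħ u f`: the
pair `(u, f)` is in the graph of `-ħ²Δ + V`; `mult V ħ z`: algebraic multiplicity).
-/

open MeasureTheory Filter Topology Set
open scoped ENNReal NNReal ContDiff

namespace Pool.Agent.K3h53.LT

open Pool.Agent.Helper41.CE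

/-- The logistic function. -/
noncomputable def sgm (x : ℝ) : ℝ := Real.exp x / (1 + Real.exp x)

/-- The softplus function. -/
noncomputable def spl (x : ℝ) : ℝ := Real.log (1 + Real.exp x)

/-- The radius as a function of the new variable `s`. -/
noncomputable def rad (R η s : ℝ) : ℝ := R / Real.log 2 * spl (η * s)

/-- The new variable `s` as a function of the radius `r > 0`. -/
noncomputable def sof (R η r : ℝ) : ℝ := Real.log (Real.exp (r * Real.log 2 / R) - 1) / η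

/-- Transformed centrifugal potential. -/
noncomputable def aa (η ν s : ℝ) : ℝ :=
  η ^ 2 * ((sgm (η * s) / spl (η * s)) ^ 2 * (ν ^ 2 - 1 / 4) + (1 - sgm (η * s) ^ 2) / 4)

/-- The weight in the new variable. -/
noncomputable def bb (η s : ℝ) : ℝ := 4 * sgm (η * s) ^ 2

/-- `ν = ℓ + (d - 2) / 2`. -/
noncomputable def nu (d ℓ : ℕ) : ℝ := ℓ + ((d : ℝ) - 2) / 2

/-- `f` is a radial profile: for a homogeneous harmonic polynomial `Y` of degree `ℓ` the function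
`u(x) = f(|x|) Y(x)` is an eigenfunction of `-h²Δ + v(|x|)` with eigenvalue `z`. Here `f1`, `f2`
are the first two derivatives of `f` on `(0, ∞)`. -/
def RadSol (d ℓ : ℕ) (h : ℝ) (v : ℝ → ℂ) (z : ℂ) (f f1 f2 : ℝ → ℂ) : Prop :=
  (∀ r : ℝ, 0 < r → HasDerivAt f (f1 r) r) ∧
  (∀ r : ℝ, 0 < r → HasDerivAt f1 (f2 r) r) ∧
  (∀ r : ℝ, 0 < r → ((h ^ 2 : ℝ) : ℂ) * (f2 r + (((d : ℝ) - 1 + 2 * ℓ) / r : ℝ) * f1 r) =
    (v r - z) * f r) ∧
  (∃ C : ℝ, ∀ r : ℝ, 0 < r → r ≤ 1 → ‖f r‖ * r ^ ℓ ≤ C * r ^ 3 ∧ ‖f1 r‖ * r ^ ℓ ≤ C * r ^ 2) ∧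
  IntegrableOn (fun r : ℝ => ‖f r‖ ^ 2 * r ^ (2 * ℓ + d - 1)) (Ioi 0) ∧
  IntegrableOn (fun r : ℝ => ‖f1 r‖ ^ 2 * r ^ (2 * ℓ + d - 1)) (Ioi 0)

/-- `Y` is a smooth homogeneous harmonic function of degree `ℓ` (a homogeneous harmonic
polynomial). -/
def HH (d ℓ : ℕ) (Y : E d → ℂ) : Prop :=
  ContDiff ℝ ∞ Y ∧ (∀ (t : ℝ) (x : E d), Y (t • x) = (t : ℂ) ^ ℓ * Y x) ∧
    ∀ x, ∑ i, pd i (pd i Y) x = 0

/-- A classical square integrable solution `y` (with `y1 = y'`) of `y'' = Q y` on the line. -/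
def Sol (Q : ℝ → ℂ) (y y1 : ℝ → ℂ) : Prop :=
  (∀ s, HasDerivAt y (y1 s) s) ∧ (∀ s, HasDerivAt y1 (Q s * y s) s) ∧
    MemLp y 2 volume ∧ MemLp y1 2 volume ∧ ∃ s, y s ≠ 0

/-- The step potential `i 1_{[0,L]}` on the line `E 1`. -/
noncomputable def Wst (L : ℝ) (x : E 1) : ℂ := if 0 ≤ x 0 ∧ x 0 ≤ L then Complex.I else 0

/-- The continuous trapezoid `i max(0, min(1, 1 + s/δ, 1 + (L-s)/δ))`. -/
noncomputable def Wtr (L δ s : ℝ) : ℂ :=
  ((max 0 (min 1 (min (1 + s / δ) (1 + (L - s) / δ))) : ℝ) : ℂ) * Complex.I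

/-- `μ = ((w + i/w)/2)²`. -/
noncomputable def mu (w : ℂ) : ℂ := ((w + Complex.I / w) / 2) ^ 2

/-- `δ(z) = dist(z, [0,∞))` and `S_{γ,σ}(V, h) = ∑_j |E_j|^{-σ} δ(E_j)^{γ+σ}`, the sum over the
eigenvalues outside `[0,∞)` of `-h²Δ + V`, counted with algebraic multiplicity. -/
noncomputable def SS {d : ℕ} (γ σ : ℝ) (V : E d → ℂ) (h : ℝ) : ℝ≥0∞ := by
  classical
  exact ∑' z : ℂ, if z ∈ posRay then 0 else
    mult V h z * ENNReal.ofReal (‖z‖ ^ (-σ) * dRay z ^ (γ + σ))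

end Pool.Agent.K3h53.LT
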