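import Pool.Agent.K3h53.LT.Defs

/-!
# Elementary facts on the transformed coefficients
-/

open MeasureTheory Filter Topology Set
open scoped ENNReal NNReal ContDiff

namespace Pool.Agent.K3h53.LT

open Pool.Agent.Helper41.CE

theorem sgm_pos (x : ℝ) : 0 < sgm x := by unfold sgm; positivity

theorem sgm_lt_one (x : ℝ) : sgm x < 1 := by
  unfold sgm
  rw [div_lt_one (by positivity)]
  linarith

theorem spl_pos (x : ℝ) : 0 < spl x := Real.log_pos (by have := Real.exp_pos x; linarith)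

theorem sgm_le_spl (x : ℝ) : sgm x ≤ spl x := by
  unfold sgm spl
  have h := Real.one_sub_inv_le_log_of_pos (show 0 < 1 + Real.exp x by positivity)
  have e : 1 - (1 + Real.exp x)⁻¹ = Real.exp x / (1 + Real.exp x) := by
    field_simp
    ring
  rwa [e] at h

theorem spl_le_exp (x : ℝ) : spl x ≤ Real.exp x := by
  unfold spl
  have := Real.log_le_sub_one_of_pos (show 0 < 1 + Real.exp x by positivity)
  linarith

theorem sgm_cont : Continuous sgm := by
  unfold sgm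
  exact Real.continuous_exp.div (by fun_prop) (fun x => by positivity)

theorem spl_cont : Continuous spl := by
  unfold spl
  exact Continuous.log (by fun_prop) (fun x => by positivity)

theorem sgm_zero : sgm 0 = 1 / 2 := by unfold sgm; norm_num

theorem spl_zero : spl 0 = Real.log 2 := by unfold spl; norm_num

theorem ratio_le (x : ℝ) : sgm x / spl x ≤ 1 := (div_le_one (spl_pos x)).2 (sgm_le_spl x)

theorem ratio_pos (x : ℝ) : 0 < sgm x / spl x := div_pos (sgm_pos x) (spl_pos x)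

theorem ratio_ge {x : ℝ} (hx : x ≤ 0) : 1 / 2 ≤ sgm x / spl x := by
  rw [le_div_iff₀ (spl_pos x)]
  have h1 := spl_le_exp x
  have h2 : Real.exp x / 2 ≤ sgm x := by
    unfold sgm
    apply div_le_div_of_nonneg_left (Real.exp_pos x).le (by positivity)
    have : Real.exp x ≤ 1 := Real.exp_le_one_iff.2 hx
    linarith
  linarith

theorem aa_cont (η ν : ℝ) : Continuous (aa η ν) := by
  unfold aa
  have h1 : Continuous fun s : ℝ => sgm (η * s) := sgm_cont.comp (by fun_prop)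
  have h2 : Continuous fun s : ℝ => spl (η * s) := spl_cont.comp (by fun_prop)
  have h3 : Continuous fun s : ℝ => sgm (η * s) / spl (η * s) := h1.div h2 fun s => (spl_pos _).ne'
  fun_prop

theorem bb_cont (η : ℝ) : Continuous (bb η) := by
  unfold bb
  have h1 : Continuous fun s : ℝ => sgm (η * s) := sgm_cont.comp (by fun_prop)
  fun_prop

theorem bb_nonneg (η s : ℝ) : 0 ≤ bb η s := by unfold bb; positivity

theorem bb_le (η s : ℝ) : bb η s ≤ 4 := by
  unfold bb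
  have h1 := sgm_pos (η * s)
  have h2 := sgm_lt_one (η * s)
  nlinarith

theorem rad_cont (R η : ℝ) : Continuous (rad R η) := by
  unfold rad
  exact continuous_const.mul (spl_cont.comp (by fun_prop))

/-- bounds for `aa` -/
theorem aa_nonneg {η ν : ℝ} (hν : 1 / 4 ≤ ν ^ 2) (s : ℝ) : 0 ≤ aa η ν s := by
  unfold aa
  have h1 := sgm_pos (η * s)
  have h2 := sgm_lt_one (η * s)
  have h3 : 0 ≤ 1 - sgm (η * s) ^ 2 := by nlinarith
  have h4 : 0 ≤ ν ^ 2 - 1 / 4 := by linarith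
  positivity

theorem aa_le {η ν : ℝ} (hν : 1 / 4 ≤ ν ^ 2) (s : ℝ) : aa η ν s ≤ (η * ν) ^ 2 := by
  unfold aa
  have h1 := sgm_pos (η * s)
  have h2 := sgm_lt_one (η * s)
  have h3 := ratio_le (η * s)
  have h3' := (ratio_pos (η * s)).le
  have h4 : 0 ≤ ν ^ 2 - 1 / 4 := by linarith
  have h5 : (sgm (η * s) / spl (η * s)) ^ 2 ≤ 1 := by nlinarith
  have h6 : (sgm (η * s) / spl (η * s)) ^ 2 * (ν ^ 2 - 1 / 4) ≤ 1 * (ν ^ 2 - 1 / 4) := by gcongr
  rw [mul_pow]
  have h7 : 0 ≤ η ^ 2 := sq_nonneg η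
  have h8 : (sgm (η * s) / spl (η * s)) ^ 2 * (ν ^ 2 - 1 / 4) + (1 - sgm (η * s) ^ 2) / 4 ≤ ν ^ 2 := by
    nlinarith [sq_nonneg (sgm (η * s))]
  exact mul_le_mul_of_nonneg_left h8 h7

/-- `aa + bb ≥ 1` -/
theorem aa_add_bb {η ν : ℝ} (hη : 0 < η) (hη1 : η ≤ 1) (hν : 4 ≤ (η * ν) ^ 2 - 1) (s : ℝ) :
    1 ≤ aa η ν s + bb η s := by
  have hν2 : 1 / 4 ≤ ν ^ 2 := by
    have : (η * ν) ^ 2 ≤ ν ^ 2 := by
      rw [mul_pow]
      have : η ^ 2 ≤ 1 := by nlinarith
      nlinarith [sq_nonneg ν]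
    linarith
  rcases le_or_gt 0 s with hs | hs
  · have h1 : 1 / 2 ≤ sgm (η * s) := by
      unfold sgm
      rw [le_div_iff₀ (by positivity)]
      have : 1 ≤ Real.exp (η * s) := Real.one_le_exp (by positivity)
      linarith
    have h2 : 1 ≤ bb η s := by
      unfold bb
      nlinarith
    have := aa_nonneg (η := η) hν2 s
    linarith
  · have hx : η * s ≤ 0 := by nlinarith
    have h1 := ratio_ge hx
    have h2 : 1 / 4 ≤ (sgm (η * s) / spl (η * s)) ^ 2 := by nlinarith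
    have h3 : 0 ≤ ν ^ 2 - 1 / 4 := by linarith
    have h4 : η ^ 2 * (1 / 4 * (ν ^ 2 - 1 / 4)) ≤ aa η ν s := by
      unfold aa
      have h5 := sgm_pos (η * s)
      have h6 := sgm_lt_one (η * s)
      have h7 : 0 ≤ (1 - sgm (η * s) ^ 2) / 4 := by
        have : sgm (η * s) ^ 2 ≤ 1 := by nlinarith
        linarith
      have h8 : 1 / 4 * (ν ^ 2 - 1 / 4) ≤
          (sgm (η * s) / spl (η * s)) ^ 2 * (ν ^ 2 - 1 / 4) + (1 - sgm (η * s) ^ 2) / 4 := by
        have := mul_le_mul_of_nonneg_right h2 h3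
        linarith
      exact mul_le_mul_of_nonneg_left h8 (sq_nonneg η)
    have h9 := bb_nonneg η s
    have h10 : η ^ 2 ≤ 1 := by nlinarith
    rw [mul_pow] at hν
    nlinarith

/-- the limit function near `0` -/
theorem near_zero (ε : ℝ) (hε : 0 < ε) : ∃ ρ : ℝ, 0 < ρ ∧ ∀ x : ℝ, |x| ≤ ρ →
    |4 * sgm x ^ 2 - 1| ≤ ε ∧
      |(2 * Real.log 2) ^ 2 * (sgm x / spl x) ^ 2 - 4 * sgm x ^ 2| ≤ ε := by
  have h1 : Continuous fun x : ℝ => 4 * sgm x ^ 2 - 1 := by
    have := sgm_cont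
    fun_prop
  have h2 : Continuous fun x : ℝ => (2 * Real.log 2) ^ 2 * (sgm x / spl x) ^ 2 - 4 * sgm x ^ 2 := by
    have := sgm_cont
    have h3 : Continuous fun x : ℝ => sgm x / spl x := sgm_cont.div spl_cont fun x => (spl_pos x).ne'
    fun_prop
  have hl : Real.log 2 ≠ 0 := (Real.log_pos (by norm_num)).ne'
  have v1 : (4 * sgm 0 ^ 2 - 1 : ℝ) = 0 := by rw [sgm_zero]; norm_num
  have v2 : (2 * Real.log 2) ^ 2 * (sgm 0 / spl 0) ^ 2 - 4 * sgm 0 ^ 2 = 0 := by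
    rw [sgm_zero, spl_zero]
    field_simp
    norm_num
  obtain ⟨ρ1, hρ1, H1⟩ := Metric.continuous_iff.1 h1 0 ε hε
  obtain ⟨ρ2, hρ2, H2⟩ := Metric.continuous_iff.1 h2 0 ε hε
  refine ⟨min ρ1 ρ2 / 2, by positivity, fun x hx => ?_⟩
  have hm : 0 < min ρ1 ρ2 := lt_min hρ1 hρ2
  have hx1 : dist x 0 < ρ1 := by
    rw [Real.dist_eq, sub_zero]
    have := min_le_left ρ1 ρ2
    linarith
  have hx2 : dist x 0 < ρ2 := by
    rw [Real.dist_eq, sub_zero]
    have := min_le_right ρ1 ρ2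
    linarith
  have a1 := H1 x hx1
  have a2 := H2 x hx2
  rw [Real.dist_eq, v1, sub_zero] at a1
  rw [Real.dist_eq, v2, sub_zero] at a2
  exact ⟨a1.le, a2.le⟩

/-- local uniform convergence of the coefficients -/
theorem coeff_loc (K : ℝ) (hK : 0 < K) (N ε : ℝ) (hε : 0 < ε) : ∃ η0 : ℝ, 0 < η0 ∧
    ∀ η ν s : ℝ, 0 < η → η ≤ η0 → (η * ν / (2 * Real.log 2)) ^ 2 ≤ K → |s| ≤ N →
      |aa η ν s - (η * ν / (2 * Real.log 2)) ^ 2 * bb η s| ≤ ε ∧ |bb η s - 1| ≤ ε := by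
  have hε' : 0 < ε / (2 * (K + 1)) := by positivity
  obtain ⟨ρ, hρ, H⟩ := near_zero (min ε (ε / (2 * (K + 1)))) (lt_min hε hε')
  refine ⟨min (ρ / (|N| + 1)) (min 1 ε), by positivity, ?_⟩
  intro η ν s hη hη0 hk hs
  have b1 : η ≤ ρ / (|N| + 1) := hη0.trans (min_le_left _ _)
  have b2 : η ≤ 1 := hη0.trans ((min_le_right _ _).trans (min_le_left _ _))
  have b3 : η ≤ ε := hη0.trans ((min_le_right _ _).trans (min_le_right _ _))
  have hx : |η * s| ≤ ρ := by
    rw [abs_mul, abs_of_pos hη]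
    have h1 : |s| ≤ |N| + 1 := by linarith [le_abs_self N]
    calc η * |s| ≤ ρ / (|N| + 1) * (|N| + 1) := by gcongr
      _ = ρ := by field_simp
  obtain ⟨H1, H2⟩ := H _ hx
  have e1 : min ε (ε / (2 * (K + 1))) ≤ ε := min_le_left _ _
  have e2 : min ε (ε / (2 * (K + 1))) ≤ ε / (2 * (K + 1)) := min_le_right _ _
  refine ⟨?_, H1.trans e1⟩
  set k := (η * ν / (2 * Real.log 2)) ^ 2 with hkdef
  have hk0 : 0 ≤ k := sq_nonneg _
  have hl : Real.log 2 ≠ 0 := (Real.log_pos (by norm_num)).ne'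
  have e3 : aa η ν s - k * bb η s =
      k * ((2 * Real.log 2) ^ 2 * (sgm (η * s) / spl (η * s)) ^ 2 - 4 * sgm (η * s) ^ 2) +
        η ^ 2 * ((1 - sgm (η * s) ^ 2) / 4 - (sgm (η * s) / spl (η * s)) ^ 2 / 4) := by
    unfold aa bb
    rw [hkdef]
    field_simp
    ring
  rw [e3]
  have h5 := sgm_pos (η * s)
  have h6 := sgm_lt_one (η * s)
  have h7 := ratio_le (η * s)
  have h8 := (ratio_pos (η * s)).le
  have h9 : |(1 - sgm (η * s) ^ 2) / 4 - (sgm (η * s) / spl (η * s)) ^ 2 / 4| ≤ 1 / 2 := by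
    rw [abs_le]
    constructor <;> nlinarith [sq_nonneg (sgm (η * s)), sq_nonneg (sgm (η * s) / spl (η * s))]
  calc |k * ((2 * Real.log 2) ^ 2 * (sgm (η * s) / spl (η * s)) ^ 2 - 4 * sgm (η * s) ^ 2) +
        η ^ 2 * ((1 - sgm (η * s) ^ 2) / 4 - (sgm (η * s) / spl (η * s)) ^ 2 / 4)|
      ≤ k * (ε / (2 * (K + 1))) + η ^ 2 * (1 / 2) := by
        refine (abs_add_le _ _).trans ?_
        rw [abs_mul, abs_mul, abs_of_nonneg hk0, abs_of_nonneg (sq_nonneg η)]
        gcongr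
        exact H2.trans e2
    _ ≤ K * (ε / (2 * (K + 1))) + ε * (1 / 2) := by
        gcongr
        nlinarith
    _ ≤ ε := by
        have : K * (ε / (2 * (K + 1))) ≤ ε / 2 := by
          rw [mul_div_assoc', div_le_div_iff₀ (by positivity) (by norm_num)]
          nlinarith
        linarith

end Pool.Agent.K3h53.LT
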