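import Pool.Agent.K3h53.LT.Stage2
import Pool.Agent.Helper41.CE.CU57

/-!
# Lower bound for the eigenvalue sum at one stage
-/

open MeasureTheory Filter Topology Set
open scoped ENNReal NNReal ContDiff

namespace Pool.Agent.K3h53.LT

open Pool.Agent.Helper41.CE

/-- A good radial profile. -/
def Good (d ℓ : ℕ) (v : ℝ → ℂ) (h : ℝ) (z : ℂ) (f : ℝ → ℂ) : Prop :=
  ContinuousOn f (Ioi 0) ∧ (∃ r : ℝ, 0 < r ∧ f r ≠ 0) ∧
    ∀ Y' : E d → ℂ, HH d ℓ Y' →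
      Graph (fun x : E d => v ‖x‖) h (fun x => f ‖x‖ * Y' x) (fun x => z * (f ‖x‖ * Y' x))

/-- The data of a stage, as in `stage_c`. -/
structure Stg (J : ℕ) where
  L : ℝ
  t : ℝ
  r : ℝ
  Ns : ℕ → Finset ℕ
  μ : ℕ → ℂ
  hL : 1 ≤ L
  ht0 : 0 < t
  ht1 : t ≤ 1
  hr0 : 0 < r
  hr4 : r ≤ 1 / 4
  hcard : ∀ j < J, L * 2 ^ j / 4 ≤ (Ns j).card
  hμ : ∀ j < J, ∀ n ∈ Ns j, 1 / 2 ≤ (μ n).im ∧ 0 < (μ n).re ∧ ‖μ n‖ ≤ (8 * 2 ^ j) ^ 2
  hsep : ∀ j < J, ∀ n ∈ Ns j, ∀ m ∈ Ns j, n ≠ m → 2 * r < ‖μ n - μ m‖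
  hsol : ∀ i : Idx (MM J), 0 < i.ν → i.t ≤ t → ∀ j < J, ∀ n ∈ Ns j,
    ∃ z ∈ Metric.closedBall (μ n) r, ∃ y y1 : ℝ → ℂ, Sol (fun s => ((aa i.η i.ν s : ℝ) : ℂ) +
      ((bb i.η s : ℝ) : ℂ) * (Wtr L i.δ s - ((i.kk : ℂ) + z)) + i.c s) y y1 ∧
      ∃ C s0 : ℝ, ∀ s ≤ s0, ‖y s‖ ≤ C * Real.exp (2 / 3 * (i.η * i.ν) * s) ∧
        ‖y1 s‖ ≤ C * Real.exp (2 / 3 * (i.η * i.ν) * s)

theorem exists_stg (J : ℕ) (homega : St_omega) (hstep : St_step) (hreg : St_reg)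
    (hdec : St_dec) : Nonempty (Stg J) := by
  obtain ⟨L, t, r, Ns, μ, h1, h2, h3, h4, h5, h6, h7, h8, h9⟩ := stage_c J homega hstep hreg hdec
  exact ⟨⟨L, t, r, Ns, μ, h1, h2, h3, h4, h5, h6, h7, h8, h9⟩⟩

/-- The hypotheses on the radial potential at a stage. -/
structure Fit {J : ℕ} (S : Stg J) (d : ℕ) (R η A h : ℝ) (v : ℝ → ℂ) : Prop where
  hd : 2 ≤ d
  hR : 0 < R
  hη : 0 < η
  hA : 0 < A
  hh : 0 < h
  hηt : η ≤ S.t
  hηd : η ≤ 1 / (d + 5)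
  hrel : η * R * √A = 2 * Real.log 2 * h
  hv : Continuous v
  hvb : ∃ C : ℝ, ∀ r, ‖v r‖ ≤ C
  herr : ∀ s, ‖((bb η s : ℝ) : ℂ) * (v (rad R η s) / (A : ℂ) - Wtr S.L S.t s)‖ ≤ S.t

/-- The eigenvalues in one sector. -/
theorem sector {J : ℕ} (S : Stg J) {d : ℕ} {R η A h : ℝ} {v : ℝ → ℂ} (F : Fit S d R η A h v)
    (htrans : St_trans) (hpde : St_pde) (j : ℕ) (hj : j < J) (ℓ : ℕ)
    (h1 : 4 * 2 ^ j ≤ η * nu d ℓ / (2 * Real.log 2)) (h2 : η * nu d ℓ / (2 * Real.log 2) ≤ 8 * 2 ^ j)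
    (hℓ : 5 + d ≤ ℓ) :
    ∃ Z : Finset ℂ, S.L * 2 ^ j / 4 ≤ Z.card ∧ ∀ E ∈ Z, 0 < E.re ∧ A / 4 ≤ E.im ∧
      ‖E‖ ≤ 200 * 4 ^ j * A ∧ ∃ f : ℝ → ℂ, Good d ℓ v h E f := by
  classical
  obtain ⟨hl1, hl2⟩ := log2_bounds
  have hl0 : 0 < Real.log 2 := by linarith
  have hp1 : (1 : ℝ) ≤ 2 ^ j := one_le_pow₀ (by norm_num)
  have hpJ : (2 : ℝ) ^ j ≤ 2 ^ J := pow_le_pow_right₀ (by norm_num) hj.le
  set k : ℝ := η * nu d ℓ / (2 * Real.log 2) with hk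
  have hk4 : 4 ≤ k := by linarith
  have hν0 : 0 < nu d ℓ := by
    by_contra hc
    have : k ≤ 0 := by
      rw [hk]
      apply div_nonpos_of_nonpos_of_nonneg _ (by positivity)
      exact mul_nonpos_of_nonneg_of_nonpos F.hη.le (not_lt.1 hc)
    linarith
  let i : Idx (MM J) :=
    { t := S.t
      δ := S.t
      η := η
      ν := nu d ℓ
      c := fun s => ((bb η s : ℝ) : ℂ) * (v (rad R η s) / (A : ℂ) - Wtr S.L S.t s)
      ht := S.ht1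
      hδ := ⟨S.ht0, le_rfl⟩
      hη := ⟨F.hη, F.hηt⟩
      hk := by
        constructor
        · nlinarith
        · unfold MM
          have h3 : k ≤ 8 * 2 ^ J := by linarith
          have h4 : 0 ≤ k := by linarith
          exact pow_le_pow_left₀ h4 h3 2
      hc := ⟨by
        have := bb_cont η
        have h5 : Continuous fun s => v (rad R η s) := F.hv.comp (rad_cont R η)
        have := Wtr_cont S.L (δ := S.t)
        have h6 : Continuous fun s => v (rad R η s) / (A : ℂ) := h5.div_const _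
        fun_prop, F.herr⟩ }
  have hkk : i.kk = k ^ 2 := rfl
  have hex : ∀ n ∈ S.Ns j, ∃ z : ℂ, z ∈ Metric.closedBall (S.μ n) S.r ∧
      ∃ f : ℝ → ℂ, Good d ℓ v h ((A : ℂ) * (((k ^ 2 : ℝ) : ℂ) + z)) f := by
    intro n hn
    obtain ⟨z, hz, y, y1, hS, hdecay⟩ := S.hsol i hν0 le_rfl j hj n hn
    refine ⟨z, hz, ?_⟩
    have hS' : Sol (fun s => ((aa η (nu d ℓ) s : ℝ) : ℂ) +
        ((bb η s : ℝ) : ℂ) * (v (rad R η s) / (A : ℂ) - (((k ^ 2 : ℝ) : ℂ) + z))) y y1 := by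
      have e : (fun s => ((aa η (nu d ℓ) s : ℝ) : ℂ) +
          ((bb η s : ℝ) : ℂ) * (v (rad R η s) / (A : ℂ) - (((k ^ 2 : ℝ) : ℂ) + z))) =
          (fun s => ((aa i.η i.ν s : ℝ) : ℂ) +
            ((bb i.η s : ℝ) : ℂ) * (Wtr S.L i.δ s - ((i.kk : ℂ) + z)) + i.c s) := by
        funext s
        rw [hkk]
        show _ = ((aa η (nu d ℓ) s : ℝ) : ℂ) + ((bb η s : ℝ) : ℂ) *
          (Wtr S.L S.t s - (((k ^ 2 : ℝ) : ℂ) + z)) +
            ((bb η s : ℝ) : ℂ) * (v (rad R η s) / (A : ℂ) - Wtr S.L S.t s)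
        ring
      rw [e]
      exact hS
    obtain ⟨f, f1, f2, hRS, r, hr, hfr⟩ := htrans d ℓ R η A h v _ y y1 F.hd hℓ F.hR F.hη F.hA
      F.hh F.hrel hS' hdecay
    refine ⟨f, ?_, ⟨r, hr, hfr⟩, ?_⟩
    · intro x hx
      exact (hRS.1 x hx).continuousAt.continuousWithinAt
    · intro Y' hY'
      exact hpde d ℓ h v _ f f1 f2 Y' F.hd (by omega) F.hh F.hv F.hvb hRS hY'
  choose! zz hzz1 hzz2 using hex
  refine ⟨(S.Ns j).image fun n => (A : ℂ) * (((k ^ 2 : ℝ) : ℂ) + zz n), ?_, ?_⟩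
  · rw [Finset.card_image_of_injOn]
    · exact S.hcard j hj
    · intro n hn m hm hnm
      by_contra hne
      have h3 := S.hsep j hj n hn m hm hne
      have h4 : zz n = zz m := by
        have h5 := mul_left_cancel₀ (show (A : ℂ) ≠ 0 by exact_mod_cast F.hA.ne') hnm
        exact add_left_cancel h5
      have h6 := hzz1 n hn
      have h7 := hzz1 m hm
      rw [Metric.mem_closedBall, dist_eq_norm] at h6 h7
      have h8 : ‖S.μ n - S.μ m‖ ≤ ‖zz n - S.μ n‖ + ‖zz m - S.μ m‖ := by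
        have : S.μ n - S.μ m = -(zz n - S.μ n) + (zz m - S.μ m) := by rw [h4]; ring
        rw [this]
        exact (norm_add_le _ _).trans (by rw [norm_neg])
      linarith
  · intro E hE
    obtain ⟨n, hn, rfl⟩ := Finset.mem_image.1 hE
    have h3 := hzz1 n hn
    rw [Metric.mem_closedBall, dist_eq_norm] at h3
    obtain ⟨m1, m2, m3⟩ := S.hμ j hj n hn
    have hre := (Complex.abs_re_le_norm (zz n - S.μ n)).trans h3
    have him := (Complex.abs_im_le_norm (zz n - S.μ n)).trans h3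
    rw [Complex.sub_re, abs_le] at hre
    rw [Complex.sub_im, abs_le] at him
    have hr4 := S.hr4
    have hA := F.hA
    have hk2 : 16 ≤ k ^ 2 := by nlinarith
    have hk2' : k ^ 2 ≤ (8 * 2 ^ j) ^ 2 := pow_le_pow_left₀ (by linarith) h2 2
    have e4 : ((8 : ℝ) * 2 ^ j) ^ 2 = 64 * 4 ^ j := by
      rw [mul_pow, ← pow_mul, mul_comm j 2, pow_mul]
      norm_num
    have e41 : (1 : ℝ) ≤ 4 ^ j := one_le_pow₀ (by norm_num)
    refine ⟨?_, ?_, ?_, hzz2 n hn⟩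
    · rw [Complex.re_ofReal_mul, Complex.add_re, Complex.ofReal_re]
      have : 0 < k ^ 2 + (zz n).re := by linarith [hre.1]
      positivity
    · rw [Complex.im_ofReal_mul, Complex.add_im, Complex.ofReal_im, zero_add]
      have : 1 / 4 ≤ (zz n).im := by linarith [him.1]
      nlinarith
    · rw [norm_mul, Complex.norm_real, Real.norm_of_nonneg hA.le]
      have h5 : ‖zz n‖ ≤ 64 * 4 ^ j + 1 / 4 := by
        have := norm_add_le (zz n - S.μ n) (S.μ n)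
        rw [sub_add_cancel] at this
        rw [e4] at m3
        linarith
      have h6 : ‖((k ^ 2 : ℝ) : ℂ) + zz n‖ ≤ 200 * 4 ^ j := by
        refine (norm_add_le _ _).trans ?_
        rw [Complex.norm_real, Real.norm_of_nonneg (sq_nonneg k)]
        rw [e4] at hk2'
        linarith
      nlinarith

end Pool.Agent.K3h53.LT
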