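import Pool.Agent.K3h53.LT.Low

/-!
# Lower bound for the eigenvalue sum at one stage: counting
-/

open MeasureTheory Filter Topology Set
open scoped ENNReal NNReal ContDiff

namespace Pool.Agent.K3h53.LT

open Pool.Agent.Helper41.CE

/-- The constant in the lower bound. -/
noncomputable def cc (d : ℕ) (γ σ : ℝ) : ℝ :=
  (200 : ℝ) ^ (-σ) * (4 : ℝ) ^ (-(γ + σ)) / (Nat.factorial (d - 2) : ℝ)

theorem cc_pos (d : ℕ) (γ σ : ℝ) : 0 < cc d γ σ := by unfold cc; positivity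

/-- The weight of one eigenvalue. -/
theorem weight_ge (γ σ A : ℝ) (j : ℕ) (hγ : 0 < γ) (hσ : 0 ≤ σ) (hA : 0 < A) (E : ℂ)
    (h1 : 0 < E.re) (h2 : A / 4 ≤ E.im) (h3 : ‖E‖ ≤ 200 * 4 ^ j * A) :
    A ^ γ * ((200 : ℝ) ^ (-σ) * ((4 : ℝ) ^ j) ^ (-σ) * (4 : ℝ) ^ (-(γ + σ))) ≤
      ‖E‖ ^ (-σ) * dRay E ^ (γ + σ) := by
  have hE : 0 < ‖E‖ := by
    have := (le_abs_self _).trans (Complex.abs_re_le_norm E)
    linarith
  have hd : A / 4 ≤ dRay E := by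
    rw [dRay_up E h1]
    exact h2.trans (le_abs_self _)
  have e1 : A ^ γ * ((200 : ℝ) ^ (-σ) * ((4 : ℝ) ^ j) ^ (-σ) * (4 : ℝ) ^ (-(γ + σ))) =
      (200 * 4 ^ j * A) ^ (-σ) * (A / 4) ^ (γ + σ) := by
    rw [Real.mul_rpow (by positivity) hA.le, Real.mul_rpow (by norm_num) (by positivity),
      div_eq_mul_inv, Real.mul_rpow hA.le (by norm_num), Real.inv_rpow (by norm_num),
      ← Real.rpow_neg (by norm_num)]
    have e2 : A ^ γ = A ^ (-σ) * A ^ (γ + σ) := by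
      rw [← Real.rpow_add hA]
      congr 1
      ring
    rw [e2]
    ring
  rw [e1]
  have h4 : (200 * 4 ^ j * A) ^ (-σ) ≤ ‖E‖ ^ (-σ) :=
    Real.rpow_le_rpow_of_nonpos hE h3 (by linarith)
  have h5 : (A / 4) ^ (γ + σ) ≤ dRay E ^ (γ + σ) :=
    Real.rpow_le_rpow (by positivity) hd (by linarith)
  have h6 : 0 ≤ (A / 4) ^ (γ + σ) := by positivity
  have h7 : 0 ≤ ‖E‖ ^ (-σ) := by positivity
  exact mul_le_mul h4 h5 h6 h7

theorem pow_gain (d j : ℕ) (σ : ℝ) (hd : 1 ≤ d) (hσ2 : σ ≤ d / 2) :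
    1 ≤ (2 : ℝ) ^ j * (2 ^ j) ^ (d - 1) * ((4 : ℝ) ^ j) ^ (-σ) := by
  have h1 : (2 : ℝ) ^ j * (2 ^ j) ^ (d - 1) = ((2 : ℝ) ^ j) ^ (d : ℝ) := by
    rw [Real.rpow_natCast, ← pow_succ', Nat.sub_add_cancel hd]
  have h2 : ((4 : ℝ) ^ j) ^ (-σ) = ((2 : ℝ) ^ j) ^ (-(2 * σ)) := by
    have : (4 : ℝ) ^ j = ((2 : ℝ) ^ j) ^ (2 : ℝ) := by
      rw [Real.rpow_two, ← pow_mul, mul_comm, pow_mul]
      norm_num
    rw [this, ← Real.rpow_mul (by positivity)]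
    congr 1
    ring
  rw [h1, h2, ← Real.rpow_add (by positivity)]
  apply Real.one_le_rpow (one_le_pow₀ (by norm_num))
  linarith

theorem lower_bound {J : ℕ} (S : Stg J) {d : ℕ} {R η A h : ℝ} {v : ℝ → ℂ}
    (F : Fit S d R η A h v) (γ σ : ℝ) (hγ : 0 < γ) (hσ : 0 ≤ σ) (hσ2 : σ ≤ d / 2)
    (htrans : St_trans) (hpde : St_pde) (hharm : St_harm) (hindep : St_indep) (hsum : St_sum) :
    ENNReal.ofReal (cc d γ σ * J * S.L * A ^ γ * (1 / η) ^ (d - 1)) ≤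
      SS γ σ (fun x : E d => v ‖x‖) h := by
  classical
  have hd := F.hd
  have hη := F.hη
  have hA := F.hA
  have hL := S.hL
  obtain ⟨hl1, hl2⟩ := log2_bounds
  have hl0 : 0 < Real.log 2 := by linarith
  have hp1 : ∀ j : ℕ, (1 : ℝ) ≤ 2 ^ j := fun j => one_le_pow₀ (by norm_num)
  have hdR : (2 : ℝ) ≤ d := by exact_mod_cast hd
  have hηinv : (d : ℝ) + 5 ≤ 1 / η := by
    rw [le_div_iff₀ hη]
    have := F.hηd
    rw [le_div_iff₀ (by positivity)] at this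
    linarith
  have hηi0 : 0 < 1 / η := by positivity
  set X : ℕ → ℝ := fun j => 2 * Real.log 2 / η * (4 * 2 ^ j) with hX
  have hXlow : ∀ j, 5.5 * (2 ^ j * (1 / η)) ≤ X j := by
    intro j
    simp only [hX]
    have h1 : 2 * Real.log 2 / η * (4 * 2 ^ j) = 8 * Real.log 2 * (2 ^ j * (1 / η)) := by ring
    rw [h1]
    have : 0 ≤ 2 ^ j * (1 / η) := by positivity
    nlinarith
  have h2j : ∀ j : ℕ, (d : ℝ) + 5 ≤ 2 ^ j * (1 / η) := by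
    intro j
    have := hp1 j
    nlinarith
  set a : ℕ → ℕ := fun j => ⌈X j - ((d : ℝ) - 2) / 2⌉₊ with ha
  set Λ : ℕ → Finset ℕ := fun j => Finset.Ico (a j) (a (j + 1)) with hΛ
  have hXs : ∀ j, X (j + 1) = 2 * X j := by
    intro j; simp only [hX]; rw [pow_succ]; ring
  have hX0 : ∀ j, 0 ≤ X j := fun j => by simp only [hX]; positivity
  have hamono : Monotone a := by
    apply monotone_nat_of_le_succ
    intro j
    apply Nat.ceil_le_ceil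
    rw [hXs]
    linarith [hX0 j]
  have hmem : ∀ j, ∀ ℓ ∈ Λ j, X j ≤ nu d ℓ ∧ nu d ℓ < 2 * X j ∧
      5 * (2 ^ j * (1 / η)) ≤ (ℓ : ℝ) ∧ 5 + d ≤ ℓ := by
    intro j ℓ hℓ
    simp only [hΛ, Finset.mem_Ico] at hℓ
    have h1 : X j - ((d : ℝ) - 2) / 2 ≤ ℓ := Nat.ceil_le.1 hℓ.1
    have h2 : (ℓ : ℝ) < X (j + 1) - ((d : ℝ) - 2) / 2 := Nat.lt_ceil.1 hℓ.2
    rw [hXs] at h2
    have h3 := hXlow j
    have h4 := h2j j
    have h5 : 5 * (2 ^ j * (1 / η)) ≤ (ℓ : ℝ) := by linarith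
    refine ⟨by unfold nu; linarith, by unfold nu; linarith, h5, ?_⟩
    have h6 : ((5 + d : ℕ) : ℝ) ≤ ℓ := by push_cast; linarith
    exact_mod_cast h6
  have hcardΛ : ∀ j, 4 * (2 ^ j * (1 / η)) ≤ ((Λ j).card : ℝ) := by
    intro j
    have h1 : (Λ j).card = a (j + 1) - a j := by simp [hΛ]
    rw [h1, Nat.cast_sub (hamono (Nat.le_succ j))]
    have h2 : X (j + 1) - ((d : ℝ) - 2) / 2 ≤ (a (j + 1) : ℝ) := Nat.le_ceil _
    have h3 : (a j : ℝ) < X j - ((d : ℝ) - 2) / 2 + 1 := by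
      apply Nat.ceil_lt_add_one
      have := hXlow j
      have := h2j j
      linarith
    have h4 := hXlow j
    have h5 := h2j j
    rw [hXs] at h2
    linarith
  have hdisj : ∀ j j', ∀ ℓ, ℓ ∈ Λ j → ℓ ∈ Λ j' → j = j' := by
    intro j j' ℓ h1 h2
    simp only [hΛ, Finset.mem_Ico] at h1 h2
    rcases lt_trichotomy j j' with h | h | h
    · have := hamono (show j + 1 ≤ j' by omega)
      omega
    · exact h
    · have := hamono (show j' + 1 ≤ j by omega)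
      omega
  set Λt : Finset ℕ := (Finset.range J).biUnion Λ with hΛt
  have hsec : ∀ ℓ ∈ Λt, ∃ Z : Finset ℂ, ∃ j, j < J ∧ ℓ ∈ Λ j ∧ S.L * 2 ^ j / 4 ≤ Z.card ∧
      ∀ E ∈ Z, 0 < E.re ∧ A / 4 ≤ E.im ∧ ‖E‖ ≤ 200 * 4 ^ j * A ∧
        ∃ f : ℝ → ℂ, Good d ℓ v h E f := by
    intro ℓ hℓ
    obtain ⟨j, hj, hℓj⟩ := Finset.mem_biUnion.1 hℓ
    obtain ⟨m1, m2, m3, m4⟩ := hmem j ℓ hℓj
    obtain ⟨Z, hZ1, hZ2⟩ := sector S F htrans hpde j (Finset.mem_range.1 hj) ℓ (by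
      rw [le_div_iff₀ (by positivity)]
      have : X j * η = 4 * 2 ^ j * (2 * Real.log 2) := by simp only [hX]; field_simp
      nlinarith) (by
      rw [div_le_iff₀ (by positivity)]
      have : X j * η = 4 * 2 ^ j * (2 * Real.log 2) := by simp only [hX]; field_simp
      nlinarith) m4
    exact ⟨Z, j, Finset.mem_range.1 hj, hℓj, hZ1, hZ2⟩
  choose! Z hZ using hsec
  have hgood : ∀ ℓ ∈ Λt, ∀ E ∈ Z ℓ, ∃ f : ℝ → ℂ, Good d ℓ v h E f := by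
    intro ℓ hℓ E hE
    obtain ⟨j, -, -, -, H⟩ := hZ ℓ hℓ
    exact (H E hE).2.2.2
  choose! ff hff using hgood
  choose N Y hN hY1 hY2 using fun ℓ => hharm d ℓ hd
  have hS := hsum hindep d γ σ h (fun x : E d => v ‖x‖) Λt Z N ff Y (by omega) (by
    intro ℓ hℓ z hz
    obtain ⟨j, -, -, -, H⟩ := hZ ℓ hℓ
    have := (H z hz).2.1
    intro hpos
    have h0 := hpos.1
    rw [h0] at this
    linarith) (fun ℓ _ => hY1 ℓ) (fun ℓ _ => hY2 ℓ) (fun ℓ hℓ z hz => hff ℓ hℓ z hz)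
  refine le_trans ?_ hS
  -- lower bound of each sector
  have hT : ∀ j < J, ∀ ℓ ∈ Λ j, ENNReal.ofReal ((S.L * 2 ^ j / 4) *
      ((2 ^ j * (1 / η)) ^ (d - 2) / (Nat.factorial (d - 2) : ℝ)) *
      (A ^ γ * ((200 : ℝ) ^ (-σ) * ((4 : ℝ) ^ j) ^ (-σ) * (4 : ℝ) ^ (-(γ + σ))))) ≤
      ∑ z ∈ Z ℓ, (N ℓ : ℝ≥0∞) * ENNReal.ofReal (‖z‖ ^ (-σ) * dRay z ^ (γ + σ)) := by
    intro j hj ℓ hℓ
    have hℓt : ℓ ∈ Λt := Finset.mem_biUnion.2 ⟨j, Finset.mem_range.2 hj, hℓ⟩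
    obtain ⟨j', hj', hℓ', hc, H⟩ := hZ ℓ hℓt
    have hjj := hdisj j j' ℓ hℓ hℓ'
    subst hjj
    obtain ⟨m1, m2, m3, m4⟩ := hmem j ℓ hℓ
    set Wj := A ^ γ * ((200 : ℝ) ^ (-σ) * ((4 : ℝ) ^ j) ^ (-σ) * (4 : ℝ) ^ (-(γ + σ))) with hWj
    have hWj0 : 0 ≤ Wj := by positivity
    have hNl : (2 ^ j * (1 / η)) ^ (d - 2) / (Nat.factorial (d - 2) : ℝ) ≤ N ℓ := by
      refine le_trans ?_ (hN ℓ)
      have h0 : 0 ≤ 2 ^ j * (1 / η) := by positivity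
      gcongr
      linarith
    calc ENNReal.ofReal ((S.L * 2 ^ j / 4) *
          ((2 ^ j * (1 / η)) ^ (d - 2) / (Nat.factorial (d - 2) : ℝ)) * Wj)
        ≤ ENNReal.ofReal (((Z ℓ).card : ℝ) * (N ℓ : ℝ) * Wj) := by
          apply ENNReal.ofReal_le_ofReal
          gcongr
      _ = ∑ z ∈ Z ℓ, (N ℓ : ℝ≥0∞) * ENNReal.ofReal Wj := by
          rw [Finset.sum_const, nsmul_eq_mul, ENNReal.ofReal_mul (by positivity),
            ENNReal.ofReal_mul (by positivity), ENNReal.ofReal_natCast, ENNReal.ofReal_natCast,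
            mul_assoc]
      _ ≤ _ := by
          apply Finset.sum_le_sum
          intro z hz
          obtain ⟨z1, z2, z3, -⟩ := H z hz
          gcongr
          exact weight_ge γ σ A j hγ hσ hA z z1 z2 z3
  have hTj : ∀ j < J, ENNReal.ofReal (cc d γ σ * S.L * A ^ γ * (1 / η) ^ (d - 1)) ≤
      ∑ ℓ ∈ Λ j, ∑ z ∈ Z ℓ, (N ℓ : ℝ≥0∞) *
        ENNReal.ofReal (‖z‖ ^ (-σ) * dRay z ^ (γ + σ)) := by
    intro j hj
    refine le_trans ?_ (Finset.sum_le_sum fun ℓ hℓ => hT j hj ℓ hℓ)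
    rw [Finset.sum_const, nsmul_eq_mul, ← ENNReal.ofReal_natCast, ← ENNReal.ofReal_mul (by positivity)]
    apply ENNReal.ofReal_le_ofReal
    have h1 := hcardΛ j
    have h2 := pow_gain d j σ (by omega) hσ2
    have h3 : (0 : ℝ) < Nat.factorial (d - 2) := by positivity
    set P := A ^ γ * ((200 : ℝ) ^ (-σ) * (4 : ℝ) ^ (-(γ + σ))) with hP
    have hP0 : 0 ≤ P := by positivity
    have e1 : (2 ^ j * (1 / η)) ^ (d - 2) * (2 ^ j * (1 / η)) =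
        ((2 : ℝ) ^ j) ^ (d - 1) * (1 / η) ^ (d - 1) := by
      rw [← pow_succ, ← mul_pow]
      congr 1
      omega
    calc cc d γ σ * S.L * A ^ γ * (1 / η) ^ (d - 1)
        = 1 * (S.L * P / (Nat.factorial (d - 2) : ℝ) * (1 / η) ^ (d - 1)) := by
          unfold cc; rw [hP]; ring
      _ ≤ ((2 : ℝ) ^ j * (2 ^ j) ^ (d - 1) * ((4 : ℝ) ^ j) ^ (-σ)) *
          (S.L * P / (Nat.factorial (d - 2) : ℝ) * (1 / η) ^ (d - 1)) := by gcongr
      _ = (4 * (2 ^ j * (1 / η))) * ((S.L * 2 ^ j / 4) *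
          ((2 ^ j * (1 / η)) ^ (d - 2) / (Nat.factorial (d - 2) : ℝ)) *
          (A ^ γ * ((200 : ℝ) ^ (-σ) * ((4 : ℝ) ^ j) ^ (-σ) * (4 : ℝ) ^ (-(γ + σ))))) := by
          rw [hP]
          have e2 : (4 * (2 ^ j * (1 / η))) * ((S.L * 2 ^ j / 4) *
            ((2 ^ j * (1 / η)) ^ (d - 2) / (Nat.factorial (d - 2) : ℝ)) *
            (A ^ γ * ((200 : ℝ) ^ (-σ) * ((4 : ℝ) ^ j) ^ (-σ) * (4 : ℝ) ^ (-(γ + σ))))) =
            ((2 ^ j * (1 / η)) ^ (d - 2) * (2 ^ j * (1 / η))) * (S.L * 2 ^ j /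
              (Nat.factorial (d - 2) : ℝ)) *
            (A ^ γ * ((200 : ℝ) ^ (-σ) * ((4 : ℝ) ^ j) ^ (-σ) * (4 : ℝ) ^ (-(γ + σ)))) := by ring
          rw [e2, e1]
          ring
      _ ≤ _ := by gcongr
  rw [hΛt, Finset.sum_biUnion]
  · calc ENNReal.ofReal (cc d γ σ * J * S.L * A ^ γ * (1 / η) ^ (d - 1))
        = ∑ j ∈ Finset.range J, ENNReal.ofReal (cc d γ σ * S.L * A ^ γ * (1 / η) ^ (d - 1)) := by
          rw [Finset.sum_const, Finset.card_range, nsmul_eq_mul, ← ENNReal.ofReal_natCast,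
            ← ENNReal.ofReal_mul (by positivity)]
          congr 1
          ring
      _ ≤ _ := Finset.sum_le_sum fun j hj => hTj j (Finset.mem_range.1 hj)
  · intro j _ j' _ hne
    rw [Function.onFun, Finset.disjoint_left]
    intro ℓ h1 h2
    exact hne (hdisj j j' ℓ h1 h2)

end Pool.Agent.K3h53.LT
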