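import Pool.Agent.K3h53.LT.Pick

/-!
# The potential
-/

open MeasureTheory Filter Topology Set
open scoped ENNReal NNReal ContDiff

namespace Pool.Agent.K3h53.LT

open Pool.Agent.Helper41.CE

theorem main_thm (homega : St_omega) (hstep : St_step) (hreg : St_reg) (hdec : St_dec)
    (htrans : St_trans) (hpde : St_pde) (hharm : St_harm) (hindep : St_indep) (hsum : St_sum)
    (d : ℕ) (hd : 2 ≤ d) :
    ∃ V : E d → ℂ, Continuous V ∧ (∀ x, ‖V x‖ ≤ 1) ∧ Tendsto V (cocompact (E d)) (𝓝 0) ∧
      ∀ γ : ℝ, 0 < γ → MemLp V (ENNReal.ofReal (γ + (d : ℝ) / 2)) volume ∧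
        ∀ σ : ℝ, 0 ≤ σ → σ ≤ (d : ℝ) / 2 → ∀ C h0 : ℝ, 0 < h0 → ∃ h : ℝ, 0 < h ∧ h < h0 ∧
          ENNReal.ofReal (C * h ^ (-(d : ℝ))) < SS γ σ V h := by
  classical
  have hdR : (2 : ℝ) ≤ d := by exact_mod_cast hd
  obtain ⟨hl1, hl2⟩ := log2_bounds
  have hl0 : 0 < Real.log 2 := by linarith
  let S : ∀ J : ℕ, Stg J := fun J => Classical.choice (exists_stg J homega hstep hreg hdec)
  let Jf : ℕ → ℝ → ℕ := fun n a => ⌈(4 : ℝ) ^ n / a ^ n⌉₊
  let As : ℕ → ℝ := fun n => Nat.rec 1 (fun n a => a * (S (Jf n a)).t / 32) n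
  have As0 : As 0 = 1 := rfl
  let T : ∀ n : ℕ, Stg (Jf n (As n)) := fun n => S (Jf n (As n))
  have AsS : ∀ n, As (n + 1) = As n * (T n).t / 32 := fun n => rfl
  have hApos : ∀ n, 0 < As n := by
    intro n
    induction n with
    | zero => rw [As0]; norm_num
    | succ n ih => rw [AsS]; have := (T n).ht0; positivity
  have hAstep : ∀ n, As (n + 1) ≤ As n / 32 := by
    intro n
    rw [AsS]
    have h1 := (T n).ht1
    have h2 := hApos n
    have h3 : As n * (T n).t ≤ As n := by nlinarith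
    linarith
  have hAanti : Antitone As := by
    apply antitone_nat_of_succ_le
    intro n
    have h1 := hAstep n
    have h2 := hApos n
    linarith
  have hA1 : ∀ n, As n ≤ 1 := fun n => by rw [← As0]; exact hAanti (Nat.zero_le n)
  have hAgeo : ∀ n, As n ≤ (1 / 2) ^ n := by
    intro n
    induction n with
    | zero => rw [As0]; norm_num
    | succ n ih =>
      have h1 := hAstep n
      have h2 := hApos n
      rw [pow_succ]
      linarith
  have hpick : ∀ (n : ℕ) (ρ : ℝ), 1 ≤ ρ → ∃ R h η : ℝ, Par d n (T n).L (T n).t (As n) ρ R h η :=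
    fun n ρ hρ => pick d hd n _ _ _ ρ (T n).hL (T n).ht0 (T n).ht1 (hApos n) (hA1 n) hρ
  choose! Rf hf ηf hPar using hpick
  let PR : ℕ → ℝ := fun n => Nat.rec 1 (fun n ρ => Rf n ρ) n
  have PR0 : PR 0 = 1 := rfl
  have PRS : ∀ n, PR (n + 1) = Rf n (PR n) := fun n => rfl
  have hAt : ∀ n, As n * (T n).t ≤ 1 := fun n => by
    have := hApos n; have := hA1 n; have := (T n).ht0; have := (T n).ht1
    nlinarith
  have hAt0 : ∀ n, 0 < As n * (T n).t := fun n => mul_pos (hApos n) (T n).ht0
  have hgrow : ∀ n (ρ : ℝ), 1 ≤ ρ → 8 * ρ ≤ Rf n ρ := by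
    intro n ρ hρ
    have h1 := (hPar n ρ hρ).hRρ
    have h2 : 8 * ρ ≤ 8 * ρ / (As n * (T n).t) := by
      rw [le_div_iff₀ (hAt0 n)]
      have := hAt n
      nlinarith
    linarith
  have hPR1 : ∀ n, 1 ≤ PR n := by
    intro n
    induction n with
    | zero => rw [PR0]
    | succ n ih =>
      rw [PRS]
      have := hgrow n (PR n) ih
      linarith
  have hPRstep : ∀ n, 8 * PR n ≤ PR (n + 1) := fun n => by
    rw [PRS]; exact hgrow n (PR n) (hPR1 n)
  have hPRmono : Monotone PR := by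
    apply monotone_nat_of_le_succ
    intro n
    have h1 := hPRstep n
    have h2 := hPR1 n
    linarith
  set Rs : ℕ → ℝ := fun n => PR (n + 1) with hRs
  set hs : ℕ → ℝ := fun n => hf n (PR n) with hhs
  set ηs : ℕ → ℝ := fun n => ηf n (PR n) with hηs
  have hP : ∀ n, Par d n (T n).L (T n).t (As n) (PR n) (Rs n) (hs n) (ηs n) :=
    fun n => hPar n (PR n) (hPR1 n)
  have hη3 : ∀ n, ηs n ≤ 0.3 := by
    intro n
    refine (hP n).hηd.trans ?_
    rw [div_le_iff₀ (by positivity)]
    linarith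
  set ps : ℕ → ℝ → ℂ := fun n => pot (As n) (Rs n) (ηs n) (T n).L (T n).t with hps
  have hpn : ∀ n r, ‖ps n r‖ ≤ As n := fun n r => pot_norm (hApos n).le _ _ _ _ _
  have hpsupp : ∀ n r, ps n r ≠ 0 → Rs n / 2 ≤ r ∧ r ≤ 2 * Rs n := fun n r h =>
    pot_zero_of (hP n).hR (hP n).hη (T n).ht0 (T n).ht1 (hη3 n) (by have := (T n).hL; linarith)
      (hP n).hηL h
  have hdisj : ∀ n m r, n < m → ps n r ≠ 0 → ps m r = 0 := by
    intro n m r hnm h1
    by_contra h2
    have a1 := (hpsupp n r h1).2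
    have a2 := (hpsupp m r h2).1
    have a3 : PR (n + 2) ≤ PR (m + 1) := hPRmono (show n + 2 ≤ m + 1 by omega)
    have a4 : 8 * PR (n + 1) ≤ PR (n + 2) := hPRstep (n + 1)
    have a5 := hPR1 (n + 1)
    simp only [hRs] at a1 a2
    linarith
  set v : ℝ → ℂ := fun r => ∑' n, ps n r with hv
  have hsingle : ∀ r, ∃ m, (∀ k, k ≠ m → ps k r = 0) ∧ v r = ps m r := by
    intro r
    by_cases h : ∃ m, ps m r ≠ 0
    · obtain ⟨m, hm⟩ := h
      have h1 : ∀ k, k ≠ m → ps k r = 0 := by
        intro k hk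
        by_contra hne
        rcases lt_or_gt_of_ne hk with h2 | h2
        · exact hm (hdisj k m r h2 hne)
        · exact hne (hdisj m k r h2 hm)
      exact ⟨m, h1, tsum_eq_single m h1⟩
    · push Not at h
      refine ⟨0, fun k _ => h k, ?_⟩
      simp only [hv]
      rw [tsum_eq_single 0 fun k _ => h k]
  have hsummA : Summable As := by
    refine Summable.of_nonneg_of_le (fun n => (hApos n).le) hAgeo ?_
    exact summable_geometric_of_lt_one (by norm_num) (by norm_num)
  have hvc : Continuous v :=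
    continuous_tsum (fun n => pot_cont (hP n).hR (hP n).hη (T n).ht0) hsummA hpn
  have hvb : ∀ r, ‖v r‖ ≤ 1 := by
    intro r
    obtain ⟨m, -, hm⟩ := hsingle r
    rw [hm]
    exact (hpn m r).trans (hA1 m)
  have hvlim : ∀ ε : ℝ, 0 < ε → ∃ R0 : ℝ, ∀ r, R0 < r → ‖v r‖ ≤ ε := by
    intro ε hε
    obtain ⟨N, hN⟩ := exists_pow_lt_of_lt_one hε (show (1 / 2 : ℝ) < 1 by norm_num)
    refine ⟨2 * Rs N, fun r hr => ?_⟩
    obtain ⟨m, -, hm⟩ := hsingle r
    rw [hm]
    rcases le_or_gt m N with h | h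
    · by_contra hc
      have hne : ps m r ≠ 0 := fun h0 => by rw [h0, norm_zero] at hc; exact hc hε.le
      have h1 := (hpsupp m r hne).2
      have h2 : Rs m ≤ Rs N := hPRmono (show m + 1 ≤ N + 1 by omega)
      linarith
    · exact (hpn m r).trans ((hAanti h.le).trans ((hAgeo N).trans hN.le))
  -- the fit at each stage
  have hfit : ∀ n, Fit (T n) d (Rs n) (ηs n) (As n) (hs n) v := by
    intro n
    have hPn := hP n
    refine ⟨hd, hPn.hR, hPn.hη, hApos n, hPn.hh, hPn.hηt, hPn.hηd, hPn.hrel, hvc, ⟨1, hvb⟩, ?_⟩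
    intro s
    set r := rad (Rs n) (ηs n) s with hr
    have hAn := hApos n
    have htn := (T n).ht0
    have hpr : ps n r = Complex.ofReal (As n) * Wtr (T n).L (T n).t s := by
      rw [hr]
      exact pot_rad hPn.hR hPn.hη s
    have hAC : Complex.ofReal (As n) ≠ 0 := Complex.ofReal_ne_zero.2 hAn.ne'
    obtain ⟨m, hm1, hm2⟩ := hsingle r
    have hbb0 := bb_nonneg (ηs n) s
    by_cases hmn : m = n
    · rw [hm2, hmn, hpr, mul_div_cancel_left₀ _ hAC, sub_self, mul_zero, norm_zero]
      exact htn.le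
    · have h1 : ps n r = 0 := hm1 n (Ne.symm hmn)
      have h2 : Wtr (T n).L (T n).t s = 0 := by
        rw [hpr] at h1
        exact (mul_eq_zero.1 h1).resolve_left hAC
      rw [h2, sub_zero, hm2, norm_mul, norm_div, Complex.norm_real, Complex.norm_real,
        Real.norm_of_nonneg hbb0, Real.norm_of_nonneg hAn.le]
      by_cases h0 : ps m r = 0
      · rw [h0, norm_zero, zero_div, mul_zero]
        exact htn.le
      · rcases lt_or_gt_of_ne hmn with hlt | hgt
        · -- inner shells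
          have h3 := (hpsupp m r h0).2
          have h4 : Rs m ≤ PR n := hPRmono (show m + 1 ≤ n by omega)
          have h5 : r ≤ 2 * PR n := by linarith
          have hR := hPn.hR
          have h6 : spl (ηs n * s) = r * Real.log 2 / Rs n := by
            rw [hr]; unfold rad; field_simp
          have hr0 : 0 < r := rad_pos hR _ _
          have h7 : sgm (ηs n * s) ≤ 2 * PR n / Rs n := by
            refine (sgm_le_spl _).trans ?_
            rw [h6]
            apply div_le_div_of_nonneg_right _ hR.le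
            nlinarith
          have h8 : bb (ηs n) s ≤ 4 * (2 * PR n / Rs n) ^ 2 := by
            unfold bb
            have := (sgm_pos (ηs n * s)).le
            gcongr
          have h9 : ‖ps m r‖ ≤ 1 := (hpn m r).trans (hA1 m)
          have h10 := hPn.hRρ
          have hPRn := hPR1 n
          have h11 : PR n / Rs n ≤ As n * (T n).t / 8 := by
            rw [div_le_iff₀ hR]
            rw [div_le_iff₀ (hAt0 n)] at h10
            linarith
          have h12 : 0 ≤ PR n / Rs n := by positivity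
          calc bb (ηs n) s * (‖ps m r‖ / As n) ≤ 4 * (2 * PR n / Rs n) ^ 2 * (1 / As n) := by gcongr
            _ = 16 * (PR n / Rs n) ^ 2 / As n := by ring
            _ ≤ 16 * (As n * (T n).t / 8) ^ 2 / As n := by gcongr
            _ = (As n * (T n).t) * (T n).t / 4 := by field_simp; ring
            _ ≤ (T n).t := by
                have := hAt n
                nlinarith
        · -- outer shells
          have h3 : ‖ps m r‖ ≤ As (n + 1) := (hpn m r).trans (hAanti hgt)
          rw [AsS] at h3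
          have h4 := bb_le (ηs n) s
          calc bb (ηs n) s * (‖ps m r‖ / As n) ≤ 4 * (As n * (T n).t / 32 / As n) := by gcongr
            _ = (T n).t / 8 := by field_simp; ring
            _ ≤ (T n).t := by linarith
  refine ⟨fun x => v ‖x‖, hvc.comp continuous_norm, fun x => hvb _, ?_, ?_⟩
  · rw [Metric.tendsto_nhds]
    intro ε hε
    obtain ⟨R0, hR0⟩ := hvlim (ε / 2) (by positivity)
    filter_upwards [(tendsto_norm_cocompact_atTop (E := E d)).eventually_gt_atTop R0] with x hx
    rw [dist_zero_right]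
    have := hR0 _ hx
    linarith
  · intro γ hγ
    constructor
    · -- `L^p`
      set p : ℝ := γ + (d : ℝ) / 2 with hp
      have hp0 : 0 < p := by positivity
      refine ⟨(hvc.comp continuous_norm).aestronglyMeasurable, ?_⟩
      rw [eLpNorm_lt_top_iff_lintegral_rpow_enorm_lt_top (by simpa using hp0) ENNReal.ofReal_ne_top,
        ENNReal.toReal_ofReal hp0.le]
      have hle : ∀ x : E d, ‖v ‖x‖‖ₑ ^ p ≤ ∑' n, ‖ps n ‖x‖‖ₑ ^ p := by
        intro x
        obtain ⟨m, -, hm⟩ := hsingle ‖x‖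
        rw [hm]
        exact ENNReal.le_tsum m
      refine lt_of_le_of_lt (lintegral_mono hle) ?_
      rw [lintegral_tsum]
      · have hterm : ∀ n, ∫⁻ x : E d, ‖ps n ‖x‖‖ₑ ^ p ≤
            ENNReal.ofReal (d * 2 ^ d) * volume (Metric.ball (0 : E d) 1) *
              ENNReal.ofReal ((1 / 2) ^ n) := fun n =>
          pot_Lp hd (hP n) (T n).hL (T n).ht0 (T n).ht1 (hApos n) (hA1 n) p (by rw [hp]; linarith)
        refine lt_of_le_of_lt (ENNReal.tsum_le_tsum hterm) ?_
        rw [ENNReal.tsum_mul_left]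
        refine ENNReal.mul_lt_top (ENNReal.mul_lt_top ENNReal.ofReal_lt_top measure_ball_lt_top) ?_
        rw [← ENNReal.ofReal_tsum_of_nonneg (fun n => by positivity)
          (summable_geometric_of_lt_one (by norm_num) (by norm_num))]
        exact ENNReal.ofReal_lt_top
      · intro n
        have h1 : Continuous fun x : E d => ps n ‖x‖ :=
          (pot_cont (hP n).hR (hP n).hη (T n).ht0).comp continuous_norm
        exact (h1.measurable.enorm.pow_const p).aemeasurable
    · intro σ hσ hσ2 C h0 hh0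
      have hcc := cc_pos d γ σ
      -- choose `n`
      have hex : ∃ n : ℕ, γ ≤ n ∧ 1 / ((n : ℝ) + 1) < h0 ∧
          |C| + 1 ≤ cc d γ σ * 2 ^ n / (3 * 2 ^ (d - 1)) := by
        have e1 : ∀ᶠ n : ℕ in atTop, γ ≤ n := tendsto_natCast_atTop_atTop.eventually_ge_atTop γ
        have e2 : ∀ᶠ n : ℕ in atTop, 1 / ((n : ℝ) + 1) < h0 :=
          tendsto_one_div_add_atTop_nhds_zero_nat.eventually (gt_mem_nhds hh0)
        have e3 : ∀ᶠ n : ℕ in atTop, |C| + 1 ≤ cc d γ σ / (3 * 2 ^ (d - 1)) * 2 ^ n :=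
          ((tendsto_pow_atTop_atTop_of_one_lt (by norm_num : (1 : ℝ) < 2)).const_mul_atTop
            (show 0 < cc d γ σ / (3 * 2 ^ (d - 1)) by positivity)).eventually_ge_atTop _
        obtain ⟨n, h1, h2, h3⟩ := (e1.and (e2.and e3)).exists
        refine ⟨n, h1, h2, h3.trans (le_of_eq (by ring))⟩
      obtain ⟨n, hn1, hn2, hn3⟩ := hex
      have hPn := hP n
      refine ⟨hs n, hPn.hh, lt_of_le_of_lt hPn.hhn hn2, ?_⟩
      have hlb := lower_bound (T n) (hfit n) γ σ hγ hσ hσ2 htrans hpde hharm hindep hsum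
      refine lt_of_lt_of_le ?_ hlb
      have hh := hPn.hh
      have hη := hPn.hη
      have hR := hPn.hR
      have hAn := hApos n
      have hAn1 := hA1 n
      have hL := (T n).hL
      have hsA : 0 < √(As n) := Real.sqrt_pos.2 hAn
      -- `1/η ≥ R √A / (2 h)`
      have k1 : Rs n * √(As n) / (2 * hs n) ≤ 1 / ηs n := by
        rw [div_le_div_iff₀ (by positivity) hη]
        have := hPn.hrel
        nlinarith
      have k2 : (Rs n * √(As n) / (2 * hs n)) ^ (d - 1) ≤ (1 / ηs n) ^ (d - 1) := by gcongr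
      have k3 : (4 : ℝ) ^ n / As n ^ n ≤ (Jf n (As n) : ℝ) := Nat.le_ceil _
      have k4 : (1 : ℝ) ≤ As n ^ γ / As n ^ n := by
        rw [one_le_div (by positivity), ← Real.rpow_natCast]
        exact Real.rpow_le_rpow_of_exponent_ge hAn hAn1 hn1
      have k5 : (4 : ℝ) ^ n ≤ (Jf n (As n) : ℝ) * As n ^ γ := by
        calc (4 : ℝ) ^ n = 4 ^ n * 1 := (mul_one _).symm
          _ ≤ 4 ^ n * (As n ^ γ / As n ^ n) := by gcongr
          _ = 4 ^ n / As n ^ n * As n ^ γ := by ring
          _ ≤ (Jf n (As n) : ℝ) * As n ^ γ := by gcongr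
      have k6 : 1 / 3 ≤ (T n).L / ((T n).L + 2) := by
        rw [div_le_div_iff₀ (by norm_num) (by linarith)]
        linarith
      have hvol := hPn.hvol
      have e42 : (4 : ℝ) ^ n * (1 / 2) ^ n = 2 ^ n := by
        rw [← mul_pow]; norm_num
      have hpd : hs n ^ (-(d : ℝ)) * (hs n * hs n ^ (d - 1)) = 1 := by
        have e1 : hs n * hs n ^ (d - 1) = hs n ^ (d : ℝ) := by
          rw [← pow_succ', Nat.sub_add_cancel (by omega), Real.rpow_natCast]
        rw [e1, ← Real.rpow_add hh]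
        simp
      have key : (|C| + 1) * hs n ^ (-(d : ℝ)) ≤
          cc d γ σ * (Jf n (As n) : ℝ) * (T n).L * As n ^ γ * (1 / ηs n) ^ (d - 1) := by
        have hq : 0 < hs n ^ (-(d : ℝ)) := by positivity
        calc (|C| + 1) * hs n ^ (-(d : ℝ))
            ≤ cc d γ σ * 2 ^ n / (3 * 2 ^ (d - 1)) * hs n ^ (-(d : ℝ)) := by gcongr
          _ = cc d γ σ * 4 ^ n * (1 / 3) * ((1 / 2) ^ n / 2 ^ (d - 1)) * hs n ^ (-(d : ℝ)) := by
              rw [← e42]; field_simp
          _ ≤ cc d γ σ * ((Jf n (As n) : ℝ) * As n ^ γ) * ((T n).L / ((T n).L + 2)) *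
              ((1 / 2) ^ n / 2 ^ (d - 1)) * hs n ^ (-(d : ℝ)) := by gcongr
          _ = cc d γ σ * (Jf n (As n) : ℝ) * (T n).L * As n ^ γ *
              (Rs n * √(As n) / (2 * hs n)) ^ (d - 1) *
                (hs n ^ (-(d : ℝ)) * (hs n * hs n ^ (d - 1))) := by
              rw [← hvol, div_pow, mul_pow 2 (hs n)]
              have h2 : ((T n).L + 2) ≠ 0 := by linarith
              field_simp
          _ = cc d γ σ * (Jf n (As n) : ℝ) * (T n).L * As n ^ γ *
              (Rs n * √(As n) / (2 * hs n)) ^ (d - 1) := by rw [hpd, mul_one]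
          _ ≤ _ := by gcongr
      have hpos : 0 < hs n ^ (-(d : ℝ)) := by positivity
      apply (ENNReal.ofReal_lt_ofReal_iff _).2
      · refine lt_of_lt_of_le ?_ key
        have : C < |C| + 1 := by linarith [le_abs_self C]
        nlinarith
      · refine lt_of_lt_of_le ?_ key
        positivity

end Pool.Agent.K3h53.LT
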