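import Pool.Agent.K3h53.LT.OLa

/-!
# Persistence of eigenvalues on the line
-/

open MeasureTheory Filter Topology Set
open scoped ENNReal NNReal ContDiff

namespace Pool.Agent.K3h53.LT

open Pool.Agent.Helper41.CE

theorem BC.sub' {d : ℕ} {f g : E d → ℂ} (hf : BC f) (hg : BC g) : BC (fun x => f x - g x) :=
  form_op_BC_sub hf hg

theorem BMsub {d : ℕ} {f g : E d → ℂ} (hf : BM f) (hg : BM g) : BM (fun x => f x - g x) := by
  obtain ⟨h1, C, hC⟩ := hf
  obtain ⟨h2, D, hD⟩ := hg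
  exact ⟨h1.sub h2, C + D, fun x => (norm_sub_le _ _).trans (add_le_add (hC x) (hD x))⟩

/-- Uniform version in `z` of `loc_compact` for `K(z) = R(z) W`. -/
theorem loc_unif {ι : Type*} {l : Filter ι} {d : ℕ} {W : E d → ℂ} (hW : BC W) (K : Set ℂ)
    (hK : IsCompact K) (hKi : K ⊆ {z : ℂ | 0 < z.im}) (G : ι → K → E d → ℂ) (C : ℝ) (hC : 0 < C)
    (hG : ∀ᶠ i in l, ∀ z, Measurable (G i z) ∧ ∀ x, ‖G i z x‖ ≤ C)
    (hloc : ∀ N ε : ℝ, 0 < ε → ∀ᶠ i in l, ∀ z x, ‖x‖ ≤ N → ‖G i z x‖ ≤ ε) (ε : ℝ) (hε : 0 < ε) :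
    ∀ᶠ i in l, ∀ z : K, ‖mulop (G i z) * (Rz (z : ℂ) * mulop W)‖ ≤ ε := by
  have key : ∀ᶠ i in l, ∀ z ∈ K, ∀ z' : K, ‖mulop (G i z') * (Rz z * mulop W)‖ ≤ ε := by
    refine hK.induction_on (p := fun S : Set ℂ => ∀ᶠ i in l, ∀ z ∈ S, ∀ z' : K,
        ‖mulop (G i z') * (Rz z * mulop W)‖ ≤ ε) ?_ ?_ ?_ ?_
    · exact Eventually.of_forall fun i z hz => absurd hz (Set.notMem_empty z)
    · intro s t hst ht
      filter_upwards [ht] with i hi z hz
      exact hi z (hst hz)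
    · intro s t hs ht
      filter_upwards [hs, ht] with i h1 h2 z hz
      rcases hz with hz | hz
      · exact h1 z hz
      · exact h2 z hz
    · intro z0 hz0
      have him : 0 < z0.im := hKi hz0
      have hopen : IsOpen {z : ℂ | 0 < z.im} := isOpen_lt continuous_const Complex.continuous_im
      have hcont : ContinuousAt (fun z => (Rs rho z : L2 d →L[ℂ] L2 d)) z0 :=
        ((Rs_diff (d := d) rho_meas').continuousOn).continuousAt (hopen.mem_nhds him)
      have hlim : Tendsto (fun z => C * (‖(Rs rho z : L2 d →L[ℂ] L2 d) - Rs rho z0‖ *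
          ‖(mulop W : L2 d →L[ℂ] L2 d)‖)) (𝓝 z0) (𝓝 0) := by
        have h1 : Tendsto (fun z => (Rs rho z : L2 d →L[ℂ] L2 d) - Rs rho z0) (𝓝 z0) (𝓝 0) := by
          have := hcont.tendsto.sub_const (Rs rho z0 : L2 d →L[ℂ] L2 d)
          simpa using this
        have h2 := (h1.norm.mul_const ‖(mulop W : L2 d →L[ℂ] L2 d)‖).const_mul C
        simpa using h2
      have hev : ∀ᶠ z in 𝓝 z0, C * (‖(Rs rho z : L2 d →L[ℂ] L2 d) - Rs rho z0‖ *
          ‖(mulop W : L2 d →L[ℂ] L2 d)‖) < ε / 2 := hlim.eventually (gt_mem_nhds (by linarith))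
      have hloc0 := loc_compact G C hC hG hloc (Rz z0 * mulop W) (RV_compact hW him) (ε / 2)
        (by linarith)
      refine ⟨{z | C * (‖(Rs rho z : L2 d →L[ℂ] L2 d) - Rs rho z0‖ *
          ‖(mulop W : L2 d →L[ℂ] L2 d)‖) < ε / 2}, mem_nhdsWithin_of_mem_nhds hev, ?_⟩
      filter_upwards [hloc0, hG] with i hi hi2 z hz z'
      have hz' : C * (‖(Rs rho z : L2 d →L[ℂ] L2 d) - Rs rho z0‖ *
          ‖(mulop W : L2 d →L[ℂ] L2 d)‖) < ε / 2 := hz
      have e1 : (mulop (G i z') * (Rz z * mulop W) : L2 d →L[ℂ] L2 d) =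
          mulop (G i z') * (Rz z0 * mulop W) +
          mulop (G i z') * ((Rs rho z - Rs rho z0) * mulop W) := by
        rw [← mul_add, ← add_mul]
        congr 2
        show (Rs rho z : L2 d →L[ℂ] L2 d) = Rs rho z0 + (Rs rho z - Rs rho z0)
        abel
      rw [e1]
      refine (norm_add_le _ _).trans ?_
      have e3 : ‖(mulop (G i z') * ((Rs rho z - Rs rho z0) * mulop W) :
          L2 d →L[ℂ] L2 d)‖ ≤ C * (‖(Rs rho z : L2 d →L[ℂ] L2 d) - Rs rho z0‖ *
          ‖(mulop W : L2 d →L[ℂ] L2 d)‖) := by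
        refine (norm_mul_le _ _).trans ?_
        refine mul_le_mul (mulop_norm ⟨(hi2 z').1, C, (hi2 z').2⟩ C (hi2 z').2) (norm_mul_le _ _)
          (norm_nonneg _) hC.le
      have := hi z'
      linarith
  filter_upwards [key] with i hi z
  exact hi z z.2 z

/-- A small perturbation of the identity has a bounded inverse. -/
theorem inv_bd {X : Type*} [NormedAddCommGroup X] [NormedSpace ℂ X] [CompleteSpace X]
    (T : X →L[ℂ] X) (t : ℝ) (ht : t < 1) (hT : ‖T‖ ≤ t) :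
    ∃ A' : X →L[ℂ] X, A' * (1 + T) = 1 ∧ (1 + T) * A' = 1 ∧ ‖A'‖ ≤ 1 / (1 - t) := by
  have h1 : IsUnit (1 - (-T)) := isUnit_one_sub_of_norm_lt_one (by rw [norm_neg]; linarith)
  rw [sub_neg_eq_add] at h1
  refine ⟨Ring.inverse (1 + T), Ring.inverse_mul_cancel _ h1, Ring.mul_inverse_cancel _ h1, ?_⟩
  have h2 : Ring.inverse (1 + T) = 1 - T * Ring.inverse (1 + T) := by
    have h3 := Ring.mul_inverse_cancel _ h1
    rw [add_mul, one_mul] at h3
    rw [eq_sub_iff_add_eq]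
    exact h3
  have h4 : ‖Ring.inverse (1 + T)‖ ≤ 1 + t * ‖Ring.inverse (1 + T)‖ := by
    calc ‖Ring.inverse (1 + T)‖ = ‖1 - T * Ring.inverse (1 + T)‖ := by rw [← h2]
      _ ≤ ‖(1 : X →L[ℂ] X)‖ + ‖T * Ring.inverse (1 + T)‖ := norm_sub_le _ _
      _ ≤ 1 + t * ‖Ring.inverse (1 + T)‖ := by
          gcongr
          · exact ContinuousLinearMap.norm_id_le
          · exact (norm_mul_le _ _).trans (mul_le_mul_of_nonneg_right hT (norm_nonneg _))
  rw [le_div_iff₀ (by linarith)]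
  nlinarith

/-- The persistence theorem on the line. -/
theorem ol {ι : Type*} (l : Filter ι) (z0 : ℂ) (r : ℝ) (hr : 0 < r)
    (him : ∀ z ∈ Metric.closedBall z0 r, 0 < z.im) (lam : ℂ) (hlr : 0 < lam.re)
    (hli : lam.im < 0) (c : ℝ) (hc : 0 < c) (p q w : ι → E 1 → ℂ) (W : E 1 → ℂ) (hW : BC W)
    (C : ℝ) (hC : 0 < C)
    (hbm : ∀ᶠ i in l, Measurable (p i) ∧ Measurable (q i) ∧ BC (w i) ∧
      ∀ x, ‖p i x‖ ≤ C ∧ ‖q i x‖ ≤ C)
    (hco : ∀ᶠ i in l, ∀ z ∈ Metric.closedBall z0 r, ∀ x, ‖p i x - z * q i x - lam‖ ≤ ‖lam‖ - c)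
    (hloc : ∀ N ε : ℝ, 0 < ε → ∀ᶠ i in l, ∀ x, ‖x‖ ≤ N → ‖p i x‖ ≤ ε ∧ ‖q i x - 1‖ ≤ ε)
    (hw : ∀ ε : ℝ, 0 < ε → ∀ᶠ i in l, ∫ x, ‖w i x - W x‖ ^ 2 ≤ ε)
    (hu : ∀ z ∈ Metric.sphere z0 r, IsUnit (1 + Rz z * mulop W))
    (hz0 : ∃ x : L2 1, x ≠ 0 ∧ x + Rz z0 (mulop W x) = 0) :
    ∀ᶠ i in l, ∃ z ∈ Metric.closedBall z0 r, ∃ g : L2 1, g ≠ 0 ∧
      g + Rz (-lam) (mulop (fun x => p i x - z * q i x + w i x - lam) g) = 0 := by
  have hli' : 0 < (-lam).im := by simpa using hli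
  have hlam : 0 < ‖lam‖ := norm_pos_iff.2 (fun h => by simp [h] at hlr)
  set R : L2 1 →L[ℂ] L2 1 := Rz (-lam) with hR
  have hRn : ‖R‖ ≤ 1 / ‖lam‖ := Rz_neg_norm hlr hli
  set Ω : Set ℂ := {z | 0 < z.im} with hΩ
  have hΩo : IsOpen Ω := isOpen_lt continuous_const Complex.continuous_im
  have hDΩ : Metric.closedBall z0 r ⊆ Ω := fun z hz => him z hz
  set M : ι → ℂ → L2 1 →L[ℂ] L2 1 := fun i z =>
    1 + R * (mulop (fun x => p i x + w i x - lam) - z • mulop (q i)) with hM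
  set A : ι → ℂ → L2 1 →L[ℂ] L2 1 := fun i z =>
    1 + R * (mulop (fun x => p i x - lam) - z • mulop (q i)) with hA
  set B : ℂ → L2 1 →L[ℂ] L2 1 := fun z => 1 + Rz z * mulop W with hB
  have hWBM := BM_of_BC hW
  -- facts valid eventually
  have hpBM : ∀ᶠ i in l, BM (p i) ∧ BM (q i) ∧ BC (w i) := by
    filter_upwards [hbm] with i hi
    exact ⟨⟨hi.1, C, fun x => (hi.2.2.2 x).1⟩, ⟨hi.2.1, C, fun x => (hi.2.2.2 x).2⟩, hi.2.2.1⟩
  have hMd : ∀ᶠ i in l, DifferentiableOn ℂ (M i) Ω := by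
    refine Eventually.of_forall fun i => ?_
    intro z _
    have h1 : DifferentiableAt ℂ (fun z : ℂ => mulop (fun x => p i x + w i x - lam) -
        z • (mulop (q i) : L2 1 →L[ℂ] L2 1)) z :=
      (differentiableAt_const _).sub (differentiableAt_id.smul_const _)
    exact ((h1.const_mul R).const_add 1).differentiableWithinAt
  have hBc : ContinuousOn B (Metric.sphere z0 r) := by
    have h1 : ContinuousOn (fun z => (Rz z : L2 1 →L[ℂ] L2 1)) Ω :=
      (Rs_diff (d := 1) rho_meas').continuousOn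
    have h2 : ContinuousOn (fun z => (Rz z : L2 1 →L[ℂ] L2 1)) (Metric.sphere z0 r) :=
      h1.mono (Metric.sphere_subset_closedBall.trans hDΩ)
    exact continuousOn_const.add (h2.mul continuousOn_const)
  have mul_sm : ∀ (f g : E 1 → ℂ) (z : ℂ), BM f → BM g →
      mulop f - z • mulop g = mulop (fun x => f x - z * g x) := by
    intro f g z hf hg
    rw [mulop_smul hg, form_op_sub hf ((BM.const' z).mul' hg)]
  have hAi : ∀ᶠ i in l, ∀ z ∈ Metric.sphere z0 r, ∃ A' : L2 1 →L[ℂ] L2 1,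
      A' * A i z = 1 ∧ A i z * A' = 1 ∧ ‖A'‖ ≤ ‖lam‖ / c := by
    filter_upwards [hpBM, hco] with i hi hi2 z hz
    have hz' := Metric.sphere_subset_closedBall hz
    have h1 : ‖R * (mulop (fun x => p i x - lam) - z • mulop (q i))‖ ≤
        1 / ‖lam‖ * (‖lam‖ - c) := by
      refine (norm_mul_le _ _).trans ?_
      have hpl : BM (fun x => p i x - lam) := BMsub hi.1 (BM.const' lam)
      rw [mul_sm _ _ z hpl hi.2.1]
      refine mul_le_mul hRn ?_ (norm_nonneg _) (by positivity)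
      refine mulop_norm (BMsub hpl ((BM.const' z).mul' hi.2.1)) _ fun x => ?_
      have := hi2 z hz' x
      rw [sub_right_comm]
      exact this
    obtain ⟨A', h2, h3, h4⟩ := inv_bd _ (1 / ‖lam‖ * (‖lam‖ - c)) (by
      rw [one_div_mul_eq_div, div_lt_one hlam]; linarith) h1
    refine ⟨A', h2, h3, h4.trans (le_of_eq ?_)⟩
    have h5 : 1 - 1 / ‖lam‖ * (‖lam‖ - c) = c / ‖lam‖ := by
      field_simp
      ring
    rw [h5, one_div_div]
  -- the remainder
  have hzq : ∀ z ∈ Metric.closedBall z0 r, ‖z‖ ≤ ‖z0‖ + r := by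
    intro z hz
    have h1 : ‖z‖ ≤ ‖z - z0‖ + ‖z0‖ := by
      have := norm_add_le (z - z0) z0
      rwa [sub_add_cancel] at this
    rw [Metric.mem_closedBall, dist_eq_norm] at hz
    linarith
  obtain ⟨CR, hCR0, hCR⟩ := Rz_mulop_small hli'
  set G : ι → (Metric.closedBall z0 r) → E 1 → ℂ := fun i z x => p i x - (z : ℂ) * (q i x - 1)
    with hG
  have hz0n : 0 ≤ ‖z0‖ + r := by positivity
  set C2 : ℝ := C + (‖z0‖ + r) * (C + 1) with hC2
  have hC20 : 0 < C2 := by positivity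
  have hGb : ∀ᶠ i in l, ∀ z, Measurable (G i z) ∧ ∀ x, ‖G i z x‖ ≤ C2 := by
    filter_upwards [hbm] with i hi z
    refine ⟨hi.1.sub ((hi.2.1.sub_const 1).const_mul _), fun x => ?_⟩
    have h1 := (hi.2.2.2 x).1
    have h2 : ‖q i x - 1‖ ≤ C + 1 := (norm_sub_le _ _).trans (by
      rw [norm_one]; exact add_le_add (hi.2.2.2 x).2 le_rfl)
    refine (norm_sub_le _ _).trans (add_le_add h1 ?_)
    rw [norm_mul]
    exact mul_le_mul (hzq z z.2) h2 (norm_nonneg _) hz0n
  have hGl : ∀ N ε : ℝ, 0 < ε → ∀ᶠ i in l, ∀ z x, ‖x‖ ≤ N → ‖G i z x‖ ≤ ε := by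
    intro N ε hε
    have hη : 0 < ε / (1 + (‖z0‖ + r)) := by positivity
    filter_upwards [hloc N _ hη] with i hi z x hx
    obtain ⟨h1, h2⟩ := hi x hx
    refine (norm_sub_le _ _).trans ?_
    rw [norm_mul]
    calc ‖p i x‖ + ‖(z : ℂ)‖ * ‖q i x - 1‖ ≤ ε / (1 + (‖z0‖ + r)) +
        (‖z0‖ + r) * (ε / (1 + (‖z0‖ + r))) := by
          gcongr
          exact hzq z z.2
      _ = ε := by field_simp
  have hRem : ∀ ε : ℝ, 0 < ε → ∀ᶠ i in l, ∀ z ∈ Metric.closedBall z0 r,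
      ‖M i z - A i z * B z‖ ≤ ε := by
    intro ε hε
    have h1 := loc_unif hW (Metric.closedBall z0 r) (isCompact_closedBall z0 r) hDΩ G C2 hC20
      hGb hGl (ε / 2 * ‖lam‖) (by positivity)
    have hε2 : 0 < (ε / (2 * CR)) ^ 2 := by positivity
    filter_upwards [h1, hpBM, hw _ hε2] with i hi1 hi2 hi3 z hz
    obtain ⟨hp, hq, hwi⟩ := hi2
    have hpl : BM (fun x => p i x - lam) := BMsub hp (BM.const' lam)
    have hzi : 0 < z.im := him z hz
    have e0 : mulop (fun x => p i x + w i x - lam) = mulop (fun x => p i x - lam) + mulop (w i) := by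
      rw [mulop_add hpl (BM_of_BC hwi)]
      congr 1
      funext x
      ring
    have e1 : M i z = A i z + R * mulop (w i) := by
      simp only [hM, hA]
      rw [e0]
      noncomm_ring
    have hid : (Rz z : L2 1 →L[ℂ] L2 1) = R + (z - -lam) • (R * Rz z) := Rz_id hzi hli'
    have e2 : A i z * Rz z = R + R * mulop (G i ⟨z, hz⟩) * Rz z := by
      have e3 : mulop (G i ⟨z, hz⟩) = mulop (fun x => p i x - lam) - z • mulop (q i) +
          (z + lam) • (1 : L2 1 →L[ℂ] L2 1) := by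
        rw [← mulop_one, mul_sm _ _ z hpl hq, mulop_smul (BM.const' 1), mulop_add
          (BMsub hpl ((BM.const' z).mul' hq)) ((BM.const' _).mul' (BM.const' 1))]
        congr 1
        funext x
        simp only [hG]
        ring
      rw [e3]
      simp only [hA]
      have e4 : (1 + R * (mulop (fun x => p i x - lam) - z • mulop (q i))) * Rz z =
          Rz z + R * (mulop (fun x => p i x - lam) - z • mulop (q i)) * Rz z := by
        rw [add_mul, one_mul]
      rw [e4]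
      rw [sub_neg_eq_add] at hid
      have e5 : R * (mulop (fun x => p i x - lam) - z • mulop (q i) +
          (z + lam) • (1 : L2 1 →L[ℂ] L2 1)) * Rz z =
          R * (mulop (fun x => p i x - lam) - z • mulop (q i)) * Rz z +
            (z + lam) • (R * Rz z) := by
        rw [mul_add, add_mul, mul_smul_comm, mul_one, smul_mul_assoc]
      rw [e5]
      calc Rz z + R * (mulop (fun x => p i x - lam) - z • mulop (q i)) * Rz z
          = (R + (z + lam) • (R * Rz z)) +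
              R * (mulop (fun x => p i x - lam) - z • mulop (q i)) * Rz z := by
            rw [← hid]
        _ = _ := by abel
    have e6 : M i z - A i z * B z = R * mulop (fun x => w i x - W x) -
        R * (mulop (G i ⟨z, hz⟩) * (Rz z * mulop W)) := by
      rw [e1]
      simp only [hB]
      rw [mul_add, mul_one, ← mul_assoc (A i z), e2, ← form_op_sub (BM_of_BC hwi) hWBM]
      noncomm_ring
    rw [e6]
    have n1 : ‖R * mulop (fun x => w i x - W x)‖ ≤ ε / 2 := by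
      refine (hCR _ (form_op_BC_sub hwi hW)).trans ?_
      have h3 : Real.sqrt (∫ x, ‖w i x - W x‖ ^ 2) ≤ ε / (2 * CR) := by
        rw [Real.sqrt_le_left (by positivity)]
        exact hi3
      calc CR * Real.sqrt (∫ x, ‖w i x - W x‖ ^ 2) ≤ CR * (ε / (2 * CR)) := by gcongr
        _ = ε / 2 := by field_simp
    have n2 : ‖R * (mulop (G i ⟨z, hz⟩) * (Rz z * mulop W))‖ ≤ ε / 2 := by
      refine (norm_mul_le _ _).trans ?_
      have h3 := hi1 ⟨z, hz⟩
      calc ‖R‖ * ‖mulop (G i ⟨z, hz⟩) * (Rz z * mulop W)‖ ≤ 1 / ‖lam‖ * (ε / 2 * ‖lam‖) := by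
            gcongr
        _ = ε / 2 := by field_simp
    exact (norm_sub_le _ _).trans (by linarith)
  have hpers := persist l Ω hΩo z0 r hr hDΩ M A B hMd hBc hu (‖lam‖ / c) hAi hRem (by
    obtain ⟨x, hx0, hx⟩ := hz0
    exact ⟨x, hx0, hx⟩)
  -- from non-invertibility to a kernel vector; the inverse of `A` on the whole ball
  filter_upwards [hpers, hpBM, hco] with i hi1 hi2 hi3
  obtain ⟨z, hz, hMz⟩ := hi1
  refine ⟨z, hz, ?_⟩
  obtain ⟨hp, hq, hwi⟩ := hi2
  have hpl : BM (fun x => p i x - lam) := BMsub hp (BM.const' lam)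
  have h1 : ‖R * (mulop (fun x => p i x - lam) - z • mulop (q i))‖ ≤
      1 / ‖lam‖ * (‖lam‖ - c) := by
    refine (norm_mul_le _ _).trans ?_
    rw [mul_sm _ _ z hpl hq]
    refine mul_le_mul hRn ?_ (norm_nonneg _) (by positivity)
    refine mulop_norm (BMsub hpl ((BM.const' z).mul' hq)) _ fun x => ?_
    have := hi3 z hz x
    rw [sub_right_comm]
    exact this
  obtain ⟨A', h2, h3, -⟩ := inv_bd _ (1 / ‖lam‖ * (‖lam‖ - c)) (by
    rw [one_div_mul_eq_div, div_lt_one hlam]; linarith) h1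
  have hAz : A i z = 1 + R * (mulop (fun x => p i x - lam) - z • mulop (q i)) := rfl
  rw [← hAz] at h2 h3
  have e0 : mulop (fun x => p i x + w i x - lam) = mulop (fun x => p i x - lam) + mulop (w i) := by
    rw [mulop_add hpl (BM_of_BC hwi)]
    congr 1
    funext x
    ring
  have e1 : M i z = A i z + R * mulop (w i) := by
    simp only [hM, hA]
    rw [e0]
    noncomm_ring
  have e2 : M i z = A i z * (1 + A' * (R * mulop (w i))) := by
    rw [e1, mul_add, mul_one, ← mul_assoc (A i z), h3, one_mul]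
  have hcomp : IsCompactOperator (A' * (R * mulop (w i))) := by
    have h4 : IsCompactOperator (R * mulop (w i)) := RV_compact hwi hli'
    exact h4.clm_comp A'
  have hAu : IsUnit (A i z) := ⟨⟨A i z, A', h3, h2⟩, rfl⟩
  rcases fred_alt _ hcomp with h5 | ⟨g, hg0, hg⟩
  · exact absurd (by rw [e2]; exact hAu.mul h5) hMz
  · refine ⟨g, hg0, ?_⟩
    have h6 : M i z g = 0 := by
      rw [e2]
      show A i z (g + (A' * (R * mulop (w i))) g) = 0
      rw [hg, map_zero]
    have e7 : mulop (fun x => p i x - z * q i x + w i x - lam) =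
        mulop (fun x => p i x + w i x - lam) - z • mulop (q i) := by
      have hplw : BM (fun x => p i x + w i x - lam) :=
        BMsub (hp.add' (BM_of_BC hwi)) (BM.const' lam)
      rw [mul_sm _ _ z hplw hq]
      congr 1
      funext x
      ring
    rw [e7]
    have h7 : M i z g = g + R ((mulop (fun x => p i x + w i x - lam) - z • mulop (q i)) g) := rfl
    rw [← h7]
    exact h6

end Pool.Agent.K3h53.LT
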