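import Pool.Agent.K3h53.LT.Defs
import Pool.Agent.Helper41.CE.CU07
import Pool.Agent.Helper41.CE.CU41
import Pool.Agent.Helper41.CE.CU43
import Pool.Agent.Helper41.CE.CU49
import Pool.Agent.Helper41.CE.CU50

/-!
# Persistence of eigenvalues on the line: auxiliary operator estimates
-/

open MeasureTheory Filter Topology Set
open scoped ENNReal NNReal ContDiff

namespace Pool.Agent.K3h53.LT

open Pool.Agent.Helper41.CE

theorem rho_meas' {d : ℕ} : Measurable (rho : E d → ℝ) := by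
  unfold rho
  fun_prop

theorem rho_nn {d : ℕ} (ξ : E d) : 0 ≤ rho ξ := by unfold rho; positivity

/-- The resolvent at `-lam` has norm at most `1/|lam|` when `Re lam ≥ 0`. -/
theorem Rz_neg_norm {d : ℕ} {lam : ℂ} (hr : 0 < lam.re) (hi : lam.im < 0) :
    ‖(Rz (-lam) : L2 d →L[ℂ] L2 d)‖ ≤ 1 / ‖lam‖ := by
  have hl : 0 < ‖lam‖ := norm_pos_iff.2 (fun h => by simp [h] at hr)
  refine Fm_norm (BM_res rho_meas' (by simpa using hi.ne)) _ fun ξ => ?_
  rw [norm_inv, one_div]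
  apply inv_anti₀ hl
  have h0 := rho_nn ξ
  have h1 : ‖lam‖ ^ 2 ≤ ‖(rho ξ : ℂ) - -lam‖ ^ 2 := by
    rw [← Complex.normSq_eq_norm_sq, ← Complex.normSq_eq_norm_sq, Complex.normSq_apply,
      Complex.normSq_apply]
    simp only [sub_neg_eq_add, Complex.add_re, Complex.ofReal_re, Complex.add_im,
      Complex.ofReal_im, zero_add]
    nlinarith
  exact abs_le_of_sq_le_sq' h1 (norm_nonneg _) |>.2

/-- Resolvent identity. -/
theorem Rz_id {d : ℕ} {z w : ℂ} (hz : 0 < z.im) (hw : 0 < w.im) :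
    (Rz z : L2 d →L[ℂ] L2 d) = Rz w + (z - w) • (Rz w * Rz z) := by
  have h1 : (Rs rho w : L2 d →L[ℂ] L2 d) - Rs rho z = (w - z) • (Rs rho w * Rs rho z) :=
    Rs_sub rho_meas' hw hz
  have h2 : (Rz z : L2 d →L[ℂ] L2 d) = Rs rho z := rfl
  have h3 : (Rz w : L2 d →L[ℂ] L2 d) = Rs rho w := rfl
  rw [h2, h3]
  have h4 : (z - w) • (Rs rho w * Rs rho z : L2 d →L[ℂ] L2 d) = -((w - z) • (Rs rho w * Rs rho z)) := by
    rw [← neg_smul, neg_sub]
  rw [h4, ← h1]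
  abel

/-- `‖(−Δ − z)^{-1} g‖ ≤ C ‖g‖_{L²}` for multiplication operators on the line. -/
theorem Rz_mulop_small {z : ℂ} (hz : 0 < z.im) : ∃ C : ℝ, 0 < C ∧ ∀ g : E 1 → ℂ, BC g →
    ‖(Rz z : L2 1 →L[ℂ] L2 1) * mulop g‖ ≤ C * Real.sqrt (∫ x, ‖g x‖ ^ 2) := by
  obtain ⟨C, hC, hk⟩ := hv_both 1 1 le_rfl (by norm_num)
  set D : ℝ := ‖(Ah 1 * Fm (exx_mu z) : L2 1 →L[ℂ] L2 1)‖ + 1 with hD
  have hD0 : 0 < D := by positivity
  refine ⟨D * C, by positivity, fun g hg => ?_⟩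
  obtain ⟨hgm, ⟨B, hB⟩, R, hR⟩ := hg
  have hV : BC (fun x => ((‖g x‖ ^ 2 : ℝ) : ℂ)) := by
    refine ⟨Complex.measurable_ofReal.comp (hgm.norm.pow_const 2), ⟨B ^ 2, fun x => ?_⟩, R,
      fun x hx => ?_⟩
    · rw [Complex.norm_real, Real.norm_of_nonneg (by positivity)]
      have := hB x
      gcongr
    · simp [hR x hx]
  have h1 := (hk _ hV).2
  have e1 : (fun x : E 1 => ((Real.sqrt ‖((‖g x‖ ^ 2 : ℝ) : ℂ)‖ : ℝ) : ℂ)) =
      fun x => ((‖g x‖ : ℝ) : ℂ) := by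
    funext x
    rw [Complex.norm_real, Real.norm_of_nonneg (by positivity), Real.sqrt_sq (norm_nonneg _)]
  have e2 : (∫ x : E 1, ‖((‖g x‖ ^ 2 : ℝ) : ℂ)‖ ^ (1 : ℝ)) ^ (1 / (1 : ℝ)) = ∫ x, ‖g x‖ ^ 2 := by
    rw [one_div, inv_one, Real.rpow_one]
    congr 1
    funext x
    rw [Complex.norm_real, Real.norm_of_nonneg (by positivity), Real.rpow_one]
  rw [e1, e2] at h1
  set s : E 1 → ℂ := fun x => g x / (‖g x‖ : ℂ) with hs
  have hs1 : ∀ x, ‖s x‖ ≤ 1 := by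
    intro x
    rw [hs]
    simp only [norm_div, Complex.norm_real, norm_norm]
    exact div_self_le_one _
  have hsBM : BM s := ⟨hgm.div (Complex.measurable_ofReal.comp hgm.norm), 1, hs1⟩
  have hgBM : BM (fun x => ((‖g x‖ : ℝ) : ℂ)) :=
    ⟨Complex.measurable_ofReal.comp hgm.norm, B, fun x => by
      rw [Complex.norm_real, norm_norm]; exact hB x⟩
  have hfac : mulop g = mulop (fun x => ((‖g x‖ : ℝ) : ℂ)) * mulop s := by
    rw [mulop_mul hgBM hsBM]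
    congr 1
    funext x
    by_cases h0 : g x = 0
    · simp [h0, hs]
    · rw [hs]
      simp only
      rw [mul_div_cancel₀]
      rw [Ne, Complex.ofReal_eq_zero, norm_eq_zero]
      exact h0
  have h6 : ‖mulop s‖ ≤ 1 := mulop_norm hsBM 1 hs1
  rw [← exx_AMA hz, hfac]
  have e3 : Ah 1 * Fm (exx_mu z) * Ah 1 * (mulop (fun x => ((‖g x‖ : ℝ) : ℂ)) * mulop s) =
      (Ah 1 * Fm (exx_mu z)) * ((Ah 1 * mulop (fun x => ((‖g x‖ : ℝ) : ℂ))) * mulop s) := by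
    simp only [mul_assoc]
  rw [e3]
  calc ‖(Ah 1 * Fm (exx_mu z)) * ((Ah 1 * mulop (fun x => ((‖g x‖ : ℝ) : ℂ))) * mulop s)‖
      ≤ ‖(Ah 1 * Fm (exx_mu z) : L2 1 →L[ℂ] L2 1)‖ *
        (‖Ah 1 * mulop (fun x => ((‖g x‖ : ℝ) : ℂ))‖ * ‖mulop s‖) := by
        refine (norm_mul_le _ _).trans ?_
        gcongr
        exact norm_mul_le _ _
    _ ≤ D * ((C * Real.sqrt (∫ x, ‖g x‖ ^ 2)) * 1) := by
        gcongr
        rw [hD]; linarith
    _ = D * C * Real.sqrt (∫ x, ‖g x‖ ^ 2) := by ring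

/-- Pointwise version of the tail estimate. -/
theorem loc_pt {ι : Type*} {l : Filter ι} {Z : Type*} {d : ℕ} (G : ι → Z → E d → ℂ) (C : ℝ)
    (hC : 0 < C) (hG : ∀ᶠ i in l, ∀ z, Measurable (G i z) ∧ ∀ x, ‖G i z x‖ ≤ C)
    (hloc : ∀ N ε : ℝ, 0 < ε → ∀ᶠ i in l, ∀ z x, ‖x‖ ≤ N → ‖G i z x‖ ≤ ε) (u : L2 d) (ε : ℝ)
    (hε : 0 < ε) : ∀ᶠ i in l, ∀ z, ‖mulop (G i z) u‖ ≤ ε := by
  have hu : MemLp (u : E d → ℂ) 2 volume := Lp.memLp u
  have hε' : ENNReal.ofReal (ε / (2 * C)) ≠ 0 := by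
    have : 0 < ε / (2 * C) := by positivity
    simpa using this
  obtain ⟨g, g1, g2, g3, g4⟩ := hu.exists_hasCompactSupport_eLpNorm_sub_le (by norm_num) hε'
  set U : L2 d := g4.toLp g with hU
  have hUc : (U : E d → ℂ) =ᵐ[volume] g := g4.coeFn_toLp
  have hdist : ‖u - U‖ ≤ ε / (2 * C) := by
    rw [Lp.norm_def]
    have e1 : eLpNorm ((u - U : L2 d) : E d → ℂ) 2 volume = eLpNorm ((u : E d → ℂ) - g) 2 volume := by
      refine eLpNorm_congr_ae ?_
      filter_upwards [Lp.coeFn_sub u U, hUc] with x hx1 hx2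
      rw [hx1, Pi.sub_apply, Pi.sub_apply, hx2]
    rw [e1]
    exact ENNReal.toReal_le_of_le_ofReal (by positivity) g2
  obtain ⟨R', hR'⟩ := g1.isCompact.isBounded.subset_closedBall (0 : E d)
  have hη : 0 < ε / (2 * (‖U‖ + 1)) := by positivity
  filter_upwards [hG, hloc R' _ hη] with i hi1 hi2
  intro z
  have hBM : BM (G i z) := ⟨(hi1 z).1, C, (hi1 z).2⟩
  have h1 : ‖mulop (G i z) U‖ ≤ ε / (2 * (‖U‖ + 1)) * ‖U‖ := by
    apply Lp.norm_le_mul_norm_of_ae_le_mul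
    filter_upwards [mulop_spec hBM U, hUc] with x hx hx2
    rw [hx, norm_mul]
    by_cases hx0 : x ∈ tsupport g
    · have h3 := hR' hx0
      rw [mem_closedBall_zero_iff] at h3
      exact mul_le_mul_of_nonneg_right (hi2 z x h3) (norm_nonneg _)
    · rw [hx2, image_eq_zero_of_notMem_tsupport hx0]
      simp
  have h2 : ‖mulop (G i z) (u - U)‖ ≤ C * (ε / (2 * C)) := by
    refine ((mulop (G i z)).le_opNorm _).trans ?_
    exact mul_le_mul (mulop_norm hBM C (hi1 z).2) hdist (norm_nonneg _) hC.le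
  have h3 : C * (ε / (2 * C)) = ε / 2 := by field_simp
  have h4 : ε / (2 * (‖U‖ + 1)) * ‖U‖ ≤ ε / 2 := by
    rw [div_mul_eq_mul_div, div_le_div_iff₀ (by positivity) (by norm_num)]
    nlinarith [norm_nonneg U]
  have e : mulop (G i z) u = mulop (G i z) (u - U) + mulop (G i z) U := by
    rw [← map_add, sub_add_cancel]
  rw [e]
  exact (norm_add_le _ _).trans (by linarith)

/-- Local uniform convergence to zero plus compactness gives convergence in norm. -/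
theorem loc_compact {ι : Type*} {l : Filter ι} {Z : Type*} {d : ℕ} (G : ι → Z → E d → ℂ) (C : ℝ)
    (hC : 0 < C) (hG : ∀ᶠ i in l, ∀ z, Measurable (G i z) ∧ ∀ x, ‖G i z x‖ ≤ C)
    (hloc : ∀ N ε : ℝ, 0 < ε → ∀ᶠ i in l, ∀ z x, ‖x‖ ≤ N → ‖G i z x‖ ≤ ε)
    (K : L2 d →L[ℂ] L2 d) (hK : IsCompactOperator K) (ε : ℝ) (hε : 0 < ε) :
    ∀ᶠ i in l, ∀ z, ‖mulop (G i z) * K‖ ≤ ε := by
  obtain ⟨S, hS, hSK⟩ := hK.image_closedBall_subset_compact 1
  set η : ℝ := ε / (C + 1) with hη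
  have hηpos : 0 < η := by positivity
  obtain ⟨t, htS, htf, htc⟩ := hS.finite_cover_balls hηpos
  have hev : ∀ᶠ i in l, ∀ u ∈ t, ∀ z, ‖mulop (G i z) u‖ ≤ η := by
    rw [Filter.eventually_all_finite htf]
    intro u hu
    exact loc_pt G C hC hG hloc u η hηpos
  filter_upwards [hev, hG] with i hi hi2
  intro z
  set T := mulop (G i z) with hT
  have hTn : ‖T‖ ≤ C := mulop_norm ⟨(hi2 z).1, C, (hi2 z).2⟩ C (hi2 z).2
  have hball : ∀ v : L2 d, ‖v‖ ≤ 1 → ‖T (K v)‖ ≤ (C + 1) * η := by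
    intro v hv
    have hKv : K v ∈ S := hSK ⟨v, by simpa using hv, rfl⟩
    have := htc hKv
    simp only [mem_iUnion, Metric.mem_ball] at this
    obtain ⟨u, hu, hd'⟩ := this
    have e1 : T (K v) = T (K v - u) + T u := by rw [← map_add, sub_add_cancel]
    have e2 : ‖T (K v - u)‖ ≤ C * η := by
      refine (T.le_opNorm _).trans (mul_le_mul hTn ?_ (norm_nonneg _) hC.le)
      rw [← dist_eq_norm]; exact hd'.le
    have e3 := hi u hu z
    calc ‖T (K v)‖ ≤ ‖T (K v - u)‖ + ‖T u‖ := by rw [e1]; exact norm_add_le _ _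
      _ ≤ C * η + η := by linarith
      _ = (C + 1) * η := by ring
  have hle : ‖T * K‖ ≤ (C + 1) * η := by
    refine ContinuousLinearMap.opNorm_le_bound _ (by positivity) ?_
    intro x
    by_cases hx : x = 0
    · simp [hx]
    have hxn : 0 < ‖x‖ := norm_pos_iff.2 hx
    have hy : ‖((‖x‖⁻¹ : ℝ) : ℂ) • x‖ ≤ 1 := by
      rw [norm_smul, Complex.norm_real, norm_inv, norm_norm, inv_mul_cancel₀ hxn.ne']
    have h1 := hball _ hy
    rw [map_smul, map_smul, norm_smul, Complex.norm_real, norm_inv, norm_norm,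
      inv_mul_le_iff₀ hxn] at h1
    show ‖T (K x)‖ ≤ _
    linarith
  have h6 : (C + 1) * η = ε := by
    rw [hη]; field_simp
  linarith

end Pool.Agent.K3h53.LT
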