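import Pool.Agent.K3h53.LT.Pot

/-!
# Choice of the parameters of one shell, and its `L^p` norm
-/

open MeasureTheory Filter Topology Set
open scoped ENNReal NNReal ContDiff

namespace Pool.Agent.K3h53.LT

open Pool.Agent.Helper41.CE

/-- The properties of the parameters. -/
structure Par (d n : ℕ) (L t A ρ R h η : ℝ) : Prop where
  hR : 0 < R
  hh : 0 < h
  hhn : h ≤ 1 / (n + 1)
  hη : 0 < η
  hηt : η ≤ t
  hηd : η ≤ 1 / (d + 5)
  hηL : η ≤ 1 / (2 * (L + 1))
  hrel : η * R * √A = 2 * Real.log 2 * h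
  hRρ : 8 * ρ / (A * t) ≤ R
  hvol : h * (R * √A) ^ (d - 1) * (L + 2) = (1 / 2) ^ n

theorem pick (d : ℕ) (hd : 2 ≤ d) (n : ℕ) (L t A ρ : ℝ) (hL : 1 ≤ L) (ht : 0 < t) (ht1 : t ≤ 1)
    (hA : 0 < A) (hA1 : A ≤ 1) (hρ : 1 ≤ ρ) : ∃ R h η : ℝ, Par d n L t A ρ R h η := by
  obtain ⟨hl1, hl2⟩ := log2_bounds
  set R0 : ℝ := 8 * ρ / (A * t) with hR0
  have hAt : A * t ≤ 1 := by nlinarith
  have hR08 : 8 ≤ R0 := by
    rw [hR0, le_div_iff₀ (by positivity)]
    nlinarith
  have hR0p : 0 < R0 := by linarith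
  set h : ℝ := min (min (1 / ((n : ℝ) + 1)) t) (min (min (1 / ((d : ℝ) + 5)) (1 / (2 * (L + 1))))
    ((1 / 2) ^ n / ((L + 2) * R0 ^ (d - 1)))) with hh
  have hh0 : 0 < h := by positivity
  have b1 : h ≤ 1 / ((n : ℝ) + 1) := (min_le_left _ _).trans (min_le_left _ _)
  have b2 : h ≤ t := (min_le_left _ _).trans (min_le_right _ _)
  have b3 : h ≤ 1 / ((d : ℝ) + 5) :=
    (min_le_right _ _).trans ((min_le_left _ _).trans (min_le_left _ _))
  have b4 : h ≤ 1 / (2 * (L + 1)) :=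
    (min_le_right _ _).trans ((min_le_left _ _).trans (min_le_right _ _))
  have b5 : h ≤ (1 / 2) ^ n / ((L + 2) * R0 ^ (d - 1)) :=
    (min_le_right _ _).trans (min_le_right _ _)
  set X : ℝ := (1 / 2) ^ n / (h * (L + 2)) with hX
  have hX0 : 0 < X := by positivity
  have hXR : R0 ^ (d - 1) ≤ X := by
    rw [hX, le_div_iff₀ (by positivity)]
    rw [le_div_iff₀ (by positivity)] at b5
    linarith
  set Y : ℝ := X ^ (((d - 1 : ℕ) : ℝ)⁻¹) with hY
  have hY0 : 0 < Y := by positivity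
  have hd1 : d - 1 ≠ 0 := by omega
  have hYX : Y ^ (d - 1) = X := Real.rpow_inv_natCast_pow hX0.le hd1
  have hYR : R0 ≤ Y := by
    rw [← hYX] at hXR
    exact (pow_le_pow_iff_left₀ hR0p.le hY0.le hd1).1 hXR
  have hsA : 0 < √A := Real.sqrt_pos.2 hA
  have hsA1 : √A ≤ 1 := Real.sqrt_le_one.2 hA1
  have hYA : Y / √A * √A = Y := div_mul_cancel₀ _ hsA.ne'
  have hηh : 2 * Real.log 2 * h / Y ≤ h := by
    rw [div_le_iff₀ hY0]
    nlinarith
  have hη0 : 0 < 2 * Real.log 2 * h / Y := by positivity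
  refine ⟨Y / √A, h, 2 * Real.log 2 * h / Y, ⟨by positivity, hh0, b1, hη0, hηh.trans b2,
    hηh.trans b3, hηh.trans b4, ?_, ?_, ?_⟩⟩
  · rw [mul_assoc, hYA]
    field_simp
  · refine hYR.trans ?_
    rw [le_div_iff₀ hsA]
    nlinarith
  · rw [hYA, hYX, hX]
    field_simp

theorem pot_zero_of {A R η L t r : ℝ} (hR : 0 < R) (hη : 0 < η) (ht : 0 < t) (ht1 : t ≤ 1)
    (hη3 : η ≤ 0.3) (hL : 0 ≤ L) (hηL : η ≤ 1 / (2 * (L + 1))) (h : pot A R η L t r ≠ 0) :
    R / 2 ≤ r ∧ r ≤ 2 * R := by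
  obtain ⟨h1, h2, h3⟩ := pot_supp hR hη ht h
  exact ⟨(rad_low hR hη ht ht1 hη3).trans h2, h3.trans (rad_high hR hη hL ht ht1 hηL)⟩

/-- The `L^p` norm of one shell. -/
theorem pot_Lp {d n : ℕ} (hd : 2 ≤ d) {L t A ρ R h η : ℝ} (P : Par d n L t A ρ R h η)
    (hL : 1 ≤ L) (ht : 0 < t) (ht1 : t ≤ 1) (hA : 0 < A) (hA1 : A ≤ 1) (p : ℝ)
    (hp : (d : ℝ) / 2 ≤ p) :
    ∫⁻ x : E d, ‖pot A R η L t ‖x‖‖ₑ ^ p ≤
      ENNReal.ofReal (d * 2 ^ d) * volume (Metric.ball (0 : E d) 1) * ENNReal.ofReal ((1 / 2) ^ n) := by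
  have hR := P.hR
  have hh := P.hh
  have hη := P.hη
  have hdR : (2 : ℝ) ≤ d := by exact_mod_cast hd
  have hp0 : 0 < p := by linarith
  have hsA : 0 < √A := Real.sqrt_pos.2 hA
  obtain ⟨hl1, hl2⟩ := log2_bounds
  have hl0 : 0 < Real.log 2 := by linarith
  set a := rad R η (-t) with ha
  set b := rad R η (L + t) with hb
  have ha0 : 0 < a := rad_pos hR η _
  have hab : a ≤ b := rad_mono hR hη (by linarith)
  have hb2 : b ≤ 2 * R := rad_high hR hη (by linarith) ht ht1 P.hηL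
  have hw : b - a ≤ R * η / Real.log 2 * (L + 2) := rad_width hR hη (by linarith) ht ht1
  set S : Set (E d) := {x | a ≤ ‖x‖ ∧ ‖x‖ ≤ b} with hS
  have hSm : MeasurableSet S :=
    (measurableSet_le measurable_const measurable_norm).inter
      (measurableSet_le measurable_norm measurable_const)
  have hle : ∀ x : E d, ‖pot A R η L t ‖x‖‖ₑ ^ p ≤ S.indicator (fun _ => ENNReal.ofReal (A ^ p)) x := by
    intro x
    by_cases h0 : pot A R η L t ‖x‖ = 0
    · rw [h0, enorm_zero, ENNReal.zero_rpow_of_pos hp0]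
      exact bot_le
    · obtain ⟨-, h2, h3⟩ := pot_supp hR hη ht h0
      rw [indicator_of_mem (show x ∈ S from ⟨h2, h3⟩), ← ENNReal.ofReal_rpow_of_pos hA]
      gcongr
      rw [← ofReal_norm]
      exact ENNReal.ofReal_le_ofReal (pot_norm hA.le _ _ _ _ _)
  refine (lintegral_mono hle).trans ?_
  rw [lintegral_indicator hSm, setLIntegral_const]
  calc ENNReal.ofReal (A ^ p) * volume S
      ≤ ENNReal.ofReal (A ^ p) * (ENNReal.ofReal (d * (b - a) * b ^ (d - 1)) *
          volume (Metric.ball (0 : E d) 1)) := by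
        gcongr
        exact shell_vol d (by omega) a b ha0.le hab (by linarith)
    _ = ENNReal.ofReal (A ^ p * (d * (b - a) * b ^ (d - 1))) * volume (Metric.ball (0 : E d) 1) := by
        rw [← mul_assoc, ← ENNReal.ofReal_mul (by positivity)]
    _ ≤ ENNReal.ofReal (d * 2 ^ d * (1 / 2) ^ n) * volume (Metric.ball (0 : E d) 1) := by
        refine mul_le_mul' (ENNReal.ofReal_le_ofReal ?_) le_rfl
        have h1 : A ^ p ≤ (√A) ^ d := by
          have e1 : (√A) ^ d = A ^ ((d : ℝ) / 2) := by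
            rw [Real.sqrt_eq_rpow, ← Real.rpow_natCast, ← Real.rpow_mul hA.le]
            congr 1
            ring
          rw [e1]
          exact Real.rpow_le_rpow_of_exponent_ge hA hA1 hp
        have h2 : R * η / Real.log 2 = 2 * h / √A := by
          have := P.hrel
          field_simp
          linarith
        have h3 : b - a ≤ 2 * h / √A * (L + 2) := by rw [← h2]; exact hw
        have h4 : b ^ (d - 1) ≤ (2 * R) ^ (d - 1) := pow_le_pow_left₀ (by linarith) hb2 _
        have hba : 0 ≤ b - a := by linarith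
        have e2 : (√A) ^ d = √A * (√A) ^ (d - 1) := by
          rw [← pow_succ']
          congr 1
          omega
        have e3 : (2 : ℝ) ^ d = 2 * 2 ^ (d - 1) := by
          rw [← pow_succ']
          congr 1
          omega
        have hvol := P.hvol
        have hb0 : 0 ≤ b := by linarith
        have h5 : (d : ℝ) * (b - a) * b ^ (d - 1) ≤
            d * (2 * h / √A * (L + 2)) * (2 * R) ^ (d - 1) := by
          apply mul_le_mul _ h4 (pow_nonneg hb0 _) (by positivity)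
          exact mul_le_mul_of_nonneg_left h3 (by positivity)
        calc A ^ p * (d * (b - a) * b ^ (d - 1))
            ≤ (√A) ^ d * (d * (2 * h / √A * (L + 2)) * (2 * R) ^ (d - 1)) :=
              mul_le_mul h1 h5 (mul_nonneg (mul_nonneg (by positivity) hba) (pow_nonneg hb0 _))
                (by positivity)
          _ = d * 2 ^ d * (h * (R * √A) ^ (d - 1) * (L + 2)) := by
              rw [e2, e3, mul_pow, mul_pow]
              field_simp
          _ = d * 2 ^ d * (1 / 2) ^ n := by rw [hvol]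
    _ = _ := by
        rw [ENNReal.ofReal_mul (by positivity)]
        ring

end Pool.Agent.K3h53.LT
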