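import Pool.Agent.K3h53.LT.Low2

/-!
# The radial shells
-/

open MeasureTheory Filter Topology Set
open scoped ENNReal NNReal ContDiff

namespace Pool.Agent.K3h53.LT

open Pool.Agent.Helper41.CE

/-- One shell. -/
noncomputable def pot (A R η L t r : ℝ) : ℂ :=
  if r ≤ 0 then 0 else (A : ℂ) * Wtr L t (sof R η r)

theorem spl_lip {x y : ℝ} (h : y ≤ x) : spl x - spl y ≤ x - y := by
  unfold spl
  have h1 : 1 + Real.exp x ≤ Real.exp (x - y) * (1 + Real.exp y) := by
    have h2 : Real.exp (x - y) * Real.exp y = Real.exp x := by rw [← Real.exp_add]; congr 1; ring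
    have h3 : 1 ≤ Real.exp (x - y) := Real.one_le_exp (by linarith)
    nlinarith
  have h4 := Real.log_le_log (by positivity) h1
  rw [Real.log_mul (by positivity) (by positivity), Real.log_exp] at h4
  linarith

theorem spl_mono {x y : ℝ} (h : y ≤ x) : spl y ≤ spl x := by
  unfold spl
  apply Real.log_le_log (by positivity)
  have := Real.exp_le_exp.2 h
  linarith

theorem rad_pos {R : ℝ} (hR : 0 < R) (η s : ℝ) : 0 < rad R η s := by
  unfold rad
  have := spl_pos (η * s)
  have h2 : 0 < Real.log 2 := Real.log_pos (by norm_num)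
  positivity

theorem sof_rad {R η : ℝ} (hR : 0 < R) (hη : 0 < η) (s : ℝ) : sof R η (rad R η s) = s := by
  unfold sof rad spl
  have h2 : 0 < Real.log 2 := Real.log_pos (by norm_num)
  have e : R / Real.log 2 * Real.log (1 + Real.exp (η * s)) * Real.log 2 / R =
      Real.log (1 + Real.exp (η * s)) := by field_simp
  rw [e, Real.exp_log (by positivity), add_sub_cancel_left, Real.log_exp]
  field_simp

theorem rad_sof {R η r : ℝ} (hR : 0 < R) (hη : 0 < η) (hr : 0 < r) : rad R η (sof R η r) = r := by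
  unfold sof rad spl
  have h2 : 0 < Real.log 2 := Real.log_pos (by norm_num)
  have h3 : 0 < Real.exp (r * Real.log 2 / R) - 1 := by
    have := Real.add_one_lt_exp (show r * Real.log 2 / R ≠ 0 by positivity)
    have h4 : 0 < r * Real.log 2 / R := by positivity
    linarith
  have e : η * (Real.log (Real.exp (r * Real.log 2 / R) - 1) / η) =
      Real.log (Real.exp (r * Real.log 2 / R) - 1) := by field_simp
  rw [e, Real.exp_log h3]
  have e2 : 1 + (Real.exp (r * Real.log 2 / R) - 1) = Real.exp (r * Real.log 2 / R) := by ring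
  rw [e2, Real.log_exp]
  field_simp

theorem pot_norm {A : ℝ} (hA : 0 ≤ A) (R η L t r : ℝ) : ‖pot A R η L t r‖ ≤ A := by
  unfold pot
  split_ifs
  · simpa using hA
  · rw [norm_mul, Complex.norm_real, Real.norm_of_nonneg hA]
    have := Wtr_norm L t (sof R η r)
    nlinarith [norm_nonneg (Wtr L t (sof R η r))]

theorem pot_rad {A R η L t : ℝ} (hR : 0 < R) (hη : 0 < η) (s : ℝ) :
    pot A R η L t (rad R η s) = (A : ℂ) * Wtr L t s := by
  unfold pot
  rw [if_neg (not_le.2 (rad_pos hR η s)), sof_rad hR hη]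

theorem rad_mono {R η x y : ℝ} (hR : 0 < R) (hη : 0 < η) (h : y ≤ x) : rad R η y ≤ rad R η x := by
  unfold rad
  have h2 : 0 < Real.log 2 := Real.log_pos (by norm_num)
  have := spl_mono (show η * y ≤ η * x by gcongr)
  gcongr

/-- Support of a shell. -/
theorem pot_supp {A R η L t r : ℝ} (hR : 0 < R) (hη : 0 < η) (ht : 0 < t)
    (h : pot A R η L t r ≠ 0) : 0 < r ∧ rad R η (-t) ≤ r ∧ r ≤ rad R η (L + t) := by
  unfold pot at h
  split_ifs at h with h0
  · exact absurd rfl h
  · have hr : 0 < r := not_le.1 h0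
    have hW : Wtr L t (sof R η r) ≠ 0 := fun h1 => h (by rw [h1, mul_zero])
    have h1 : ¬ (sof R η r ≤ -t ∨ L + t ≤ sof R η r) := fun h2 => hW (Wtr_zero ht h2)
    rw [not_or, not_le, not_le] at h1
    have h2 := rad_mono (R := R) hR hη h1.1.le
    have h3 := rad_mono (R := R) hR hη h1.2.le
    rw [rad_sof hR hη hr] at h2 h3
    exact ⟨hr, h2, h3⟩

theorem rad_low {R η t : ℝ} (hR : 0 < R) (hη : 0 < η) (ht : 0 < t) (ht1 : t ≤ 1)
    (hη3 : η ≤ 0.3) : R / 2 ≤ rad R η (-t) := by
  unfold rad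
  obtain ⟨hl1, hl2⟩ := log2_bounds
  have hl0 : 0 < Real.log 2 := by linarith
  have h1 := spl_lip (show η * -t ≤ 0 by nlinarith)
  rw [spl_zero] at h1
  have h2 : Real.log 2 / 2 ≤ spl (η * -t) := by nlinarith
  calc R / 2 = R / Real.log 2 * (Real.log 2 / 2) := by field_simp
    _ ≤ _ := by gcongr

theorem rad_high {R η L t : ℝ} (hR : 0 < R) (hη : 0 < η) (hL : 0 ≤ L) (ht : 0 < t) (ht1 : t ≤ 1)
    (hηL : η ≤ 1 / (2 * (L + 1))) : rad R η (L + t) ≤ 2 * R := by
  unfold rad
  obtain ⟨hl1, hl2⟩ := log2_bounds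
  have hl0 : 0 < Real.log 2 := by linarith
  have h1 := spl_lip (show 0 ≤ η * (L + t) by positivity)
  rw [spl_zero] at h1
  have h3 : η * (L + t) ≤ 1 / 2 := by
    rw [le_div_iff₀ (by positivity)] at hηL
    nlinarith
  have h2 : spl (η * (L + t)) ≤ 2 * Real.log 2 := by linarith
  calc R / Real.log 2 * spl (η * (L + t)) ≤ R / Real.log 2 * (2 * Real.log 2) := by gcongr
    _ = 2 * R := by field_simp

theorem rad_width {R η L t : ℝ} (hR : 0 < R) (hη : 0 < η) (hL : 0 ≤ L) (ht : 0 < t)
    (ht1 : t ≤ 1) : rad R η (L + t) - rad R η (-t) ≤ R * η / Real.log 2 * (L + 2) := by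
  unfold rad
  have hl0 : 0 < Real.log 2 := Real.log_pos (by norm_num)
  have h1 := spl_lip (show η * -t ≤ η * (L + t) by nlinarith)
  have h2 : spl (η * (L + t)) - spl (η * -t) ≤ η * (L + 2) := by nlinarith
  calc R / Real.log 2 * spl (η * (L + t)) - R / Real.log 2 * spl (η * -t)
      = R / Real.log 2 * (spl (η * (L + t)) - spl (η * -t)) := by ring
    _ ≤ R / Real.log 2 * (η * (L + 2)) := by gcongr
    _ = _ := by ring

theorem pot_cont {A R η L t : ℝ} (hR : 0 < R) (hη : 0 < η) (ht : 0 < t) :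
    Continuous (pot A R η L t) := by
  rw [continuous_iff_continuousAt]
  intro r
  rcases lt_or_ge 0 r with hr | hr
  · have h1 : ContinuousAt (fun r => (A : ℂ) * Wtr L t (sof R η r)) r := by
      have h3 : 0 < Real.exp (r * Real.log 2 / R) - 1 := by
        have h2 : 0 < Real.log 2 := Real.log_pos (by norm_num)
        have h4 : 0 < r * Real.log 2 / R := by positivity
        have := Real.add_one_lt_exp h4.ne'
        linarith
      have h5 : ContinuousAt (sof R η) r := by
        unfold sof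
        have h6 : ContinuousAt (fun r => Real.exp (r * Real.log 2 / R) - 1) r := by fun_prop
        exact (h6.log h3.ne').div_const _
      exact continuousAt_const.mul ((Wtr_cont L).continuousAt.comp h5)
    refine h1.congr ?_
    filter_upwards [lt_mem_nhds hr] with x hx
    unfold pot
    rw [if_neg (not_le.2 hx)]
  · have h1 : ContinuousAt (fun _ : ℝ => (0 : ℂ)) r := continuousAt_const
    refine h1.congr ?_
    have h2 : r < rad R η (-t) := hr.trans_lt (rad_pos hR η _)
    filter_upwards [gt_mem_nhds h2] with x hx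
    by_contra hne
    have := (pot_supp hR hη ht (Ne.symm hne)).2.1
    linarith

theorem pow_diff (n : ℕ) {a b : ℝ} (ha : 0 ≤ a) (hab : a ≤ b) (hb : 0 < b) :
    b ^ (n + 1) - a ^ (n + 1) ≤ (n + 1) * (b - a) * b ^ n := by
  induction n with
  | zero => simp
  | succ n ih =>
    have h1 : a ^ (n + 1) ≤ b ^ (n + 1) := pow_le_pow_left₀ ha hab _
    have h2 : b ^ (n + 1 + 1) - a ^ (n + 1 + 1) =
        b * (b ^ (n + 1) - a ^ (n + 1)) + a ^ (n + 1) * (b - a) := by ring
    rw [h2]
    have h3 : b * (b ^ (n + 1) - a ^ (n + 1)) ≤ b * ((n + 1) * (b - a) * b ^ n) := by gcongr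
    have h4 : a ^ (n + 1) * (b - a) ≤ b ^ (n + 1) * (b - a) := by
      apply mul_le_mul_of_nonneg_right h1; linarith
    have h5 : b * ((n + 1) * (b - a) * b ^ n) + b ^ (n + 1) * (b - a) =
        ((n : ℝ) + 1 + 1) * (b - a) * b ^ (n + 1) := by ring
    push_cast
    linarith

/-- Volume of a spherical shell. -/
theorem shell_vol (d : ℕ) (hd : 1 ≤ d) (a b : ℝ) (ha : 0 ≤ a) (hab : a ≤ b) (hb : 0 < b) :
    volume {x : E d | a ≤ ‖x‖ ∧ ‖x‖ ≤ b} ≤
      ENNReal.ofReal (d * (b - a) * b ^ (d - 1)) * volume (Metric.ball (0 : E d) 1) := by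
  have hsub : {x : E d | a ≤ ‖x‖ ∧ ‖x‖ ≤ b} ⊆ Metric.closedBall 0 b \ Metric.ball 0 a := by
    rintro x ⟨h1, h2⟩
    exact ⟨by simpa using h2, by simpa using h1⟩
  refine (measure_mono hsub).trans ?_
  haveI : Nonempty (Fin d) := ⟨⟨0, by omega⟩⟩
  haveI : Nontrivial (E d) := by
    refine ⟨⟨0, EuclideanSpace.single ⟨0, by omega⟩ 1, fun h => ?_⟩⟩
    have h1 := congrArg (fun x : E d => x ⟨0, by omega⟩) h
    simp at h1
  rw [measure_diff ((Metric.ball_subset_closedBall).trans (Metric.closedBall_subset_closedBall hab))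
    measurableSet_ball.nullMeasurableSet measure_ball_lt_top.ne,
    Measure.addHaar_closedBall _ _ hb.le, Measure.addHaar_ball _ _ ha]
  have hfr : Module.finrank ℝ (E d) = d := by simp
  rw [hfr, ← ENNReal.sub_mul (fun _ _ => measure_ball_lt_top.ne), ← ENNReal.ofReal_sub _ (by positivity)]
  gcongr
  obtain ⟨n, rfl⟩ : ∃ n, d = n + 1 := ⟨d - 1, by omega⟩
  have := pow_diff n ha hab hb
  push_cast
  simpa using this

end Pool.Agent.K3h53.LT
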