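import Pool.Agent.K3h53.LT.Defs

/-!
# Statements of the bricks
-/

open MeasureTheory Filter Topology Set
open scoped ENNReal NNReal ContDiff

namespace Pool.Agent.K3h53.LT

open Pool.Agent.Helper41.CE

/-- Brick OMEGA: a fixed point equation, and injectivity of `mu`. -/
def St_omega : Prop :=
  (∀ θ L : ℝ, 4 ≤ θ → 8 * (θ + 1) ^ 2 ≤ L → ∃ w : ℂ, ‖w - θ‖ ≤ 1 ∧
    w = θ + Complex.I / w - 4 / L * Complex.I * Complex.log w ∧ 0 < w.im) ∧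
  (∀ w w' : ℂ, 1 < ‖w‖ → 1 < ‖w'‖ → 0 < w.re → 0 < w'.re → 0 < w.im → 0 < w'.im →
    mu w = mu w' → w = w')

/-- Brick STEP: even bound states of the step potential `i 1_{[0,L]}`. -/
def St_step : Prop :=
  ∀ (L θ : ℝ) (n : ℕ) (w : ℂ), 4 ≤ θ → 8 * (θ + 1) ^ 2 ≤ L →
    θ * L = Real.pi + 4 * Real.pi * n → ‖w - θ‖ ≤ 1 →
    w = θ + Complex.I / w - 4 / L * Complex.I * Complex.log w → 0 < w.im →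
    1 / 2 ≤ (mu w).im ∧ 0 < (mu w).re ∧ ‖mu w‖ ≤ θ ^ 2 ∧
    ∃ x : L2 1, x ≠ 0 ∧ x + Rz (mu w) (mulop (Wst L) x) = 0

/-- Brick REG: a solution in `L²` in the operator sense is a classical solution. -/
def St_reg : Prop :=
  ∀ (lam : ℂ) (Q : ℝ → ℂ) (g : L2 1), 0 < lam.re → lam.im < 0 → Continuous Q →
    (∃ C : ℝ, ∀ s, ‖Q s‖ ≤ C) → g ≠ 0 →
    g + Rz (-lam) (mulop (fun x : E 1 => Q (x 0) - lam) g) = 0 →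
    ∃ y y1 : ℝ → ℂ, Sol Q y y1

/-- Brick DEC: exponential decay at `-∞`. -/
def St_dec : Prop :=
  ∀ (Q y y1 : ℝ → ℂ) (κ s0 : ℝ), Sol Q y y1 → 0 < κ → (∃ C : ℝ, ∀ s, ‖Q s‖ ≤ C) →
    (∀ s ≤ s0, κ ^ 2 ≤ (Q s).re) →
    ∃ C : ℝ, ∀ s ≤ s0, ‖y s‖ ≤ C * Real.exp (7 / 10 * κ * s) ∧
      ‖y1 s‖ ≤ C * Real.exp (7 / 10 * κ * s)

/-- Brick TRANS: from the equation on the line to the radial equation. -/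
def St_trans : Prop :=
  ∀ (d ℓ : ℕ) (R η A h : ℝ) (v : ℝ → ℂ) (e : ℂ) (y y1 : ℝ → ℂ), 2 ≤ d → 5 + d ≤ ℓ →
    0 < R → 0 < η → 0 < A → 0 < h → η * R * √A = 2 * Real.log 2 * h →
    Sol (fun s => ((aa η (nu d ℓ) s : ℝ) : ℂ) +
      ((bb η s : ℝ) : ℂ) * (v (rad R η s) / (A : ℂ) - e)) y y1 →
    (∃ C s0 : ℝ, ∀ s ≤ s0, ‖y s‖ ≤ C * Real.exp (2 / 3 * (η * nu d ℓ) * s) ∧
      ‖y1 s‖ ≤ C * Real.exp (2 / 3 * (η * nu d ℓ) * s)) →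
    ∃ f f1 f2 : ℝ → ℂ, RadSol d ℓ h v ((A : ℂ) * e) f f1 f2 ∧ ∃ r : ℝ, 0 < r ∧ f r ≠ 0

/-- Brick PDE: from the radial equation to an eigenfunction on `ℝᵈ`. -/
def St_pde : Prop :=
  ∀ (d ℓ : ℕ) (h : ℝ) (v : ℝ → ℂ) (z : ℂ) (f f1 f2 : ℝ → ℂ) (Y : E d → ℂ), 2 ≤ d → 3 ≤ ℓ →
    0 < h → Continuous v → (∃ C : ℝ, ∀ r, ‖v r‖ ≤ C) → RadSol d ℓ h v z f f1 f2 → HH d ℓ Y →
    Graph (fun x : E d => v ‖x‖) h (fun x => f ‖x‖ * Y x) (fun x => z * (f ‖x‖ * Y x))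

/-- Brick HARM: there are many homogeneous harmonic polynomials of degree `ℓ`. -/
def St_harm : Prop :=
  ∀ d ℓ : ℕ, 2 ≤ d → ∃ (N : ℕ) (Y : Fin N → E d → ℂ),
    (ℓ : ℝ) ^ (d - 2) / (Nat.factorial (d - 2) : ℝ) ≤ N ∧ (∀ j, HH d ℓ (Y j)) ∧
      LinearIndependent ℂ Y

/-- Brick INDEP: harmonic homogeneous functions of different degrees are independent on a
sphere. -/
def St_indep : Prop :=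
  ∀ (d : ℕ) (Λ : Finset ℕ) (H : ℕ → E d → ℂ) (r : ℝ), 1 ≤ d → 0 < r →
    (∀ ℓ ∈ Λ, HH d ℓ (H ℓ)) → (∀ x : E d, ‖x‖ = r → ∑ ℓ ∈ Λ, H ℓ x = 0) →
    ∀ ℓ ∈ Λ, ∀ x, H ℓ x = 0

/-- Brick SUM: lower bound of the eigenvalue sum by eigenfunctions in several sectors. -/
def St_sum : Prop :=
  St_indep →
  ∀ (d : ℕ) (γ σ h : ℝ) (V : E d → ℂ) (Λ : Finset ℕ) (Z : ℕ → Finset ℂ) (N : ℕ → ℕ)
    (f : ℕ → ℂ → ℝ → ℂ) (Y : (ℓ : ℕ) → Fin (N ℓ) → E d → ℂ), 1 ≤ d →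
    (∀ ℓ ∈ Λ, ∀ z ∈ Z ℓ, z ∉ posRay) → (∀ ℓ ∈ Λ, ∀ j, HH d ℓ (Y ℓ j)) →
    (∀ ℓ ∈ Λ, LinearIndependent ℂ (Y ℓ)) →
    (∀ ℓ ∈ Λ, ∀ z ∈ Z ℓ, ContinuousOn (f ℓ z) (Ioi 0) ∧ (∃ r : ℝ, 0 < r ∧ f ℓ z r ≠ 0) ∧
      ∀ Y' : E d → ℂ, HH d ℓ Y' →
        Graph V h (fun x => f ℓ z ‖x‖ * Y' x) (fun x => z * (f ℓ z ‖x‖ * Y' x))) →
    ∑ ℓ ∈ Λ, ∑ z ∈ Z ℓ, (N ℓ : ℝ≥0∞) * ENNReal.ofReal (‖z‖ ^ (-σ) * dRay z ^ (γ + σ)) ≤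
      SS γ σ V h

end Pool.Agent.K3h53.LT
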