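import Pool.Agent.K3h53.LT.W1
import Pool.Agent.K3h53.LT.OL
import Pool.Agent.K3h53.LT.Stm

/-!
# Existence of eigenvalues for the equation on the line
-/

open MeasureTheory Filter Topology Set
open scoped ENNReal NNReal ContDiff

namespace Pool.Agent.K3h53.LT

open Pool.Agent.Helper41.CE

/-- Parameters: `t` is an upper bound for `δ`, `η` and the error `c`. -/
structure Idx (M : ℝ) where
  t : ℝ
  δ : ℝ
  η : ℝ
  ν : ℝ
  c : ℝ → ℂ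
  ht : t ≤ 1
  hδ : 0 < δ ∧ δ ≤ t
  hη : 0 < η ∧ η ≤ t
  hk : 16 ≤ (η * ν / (2 * Real.log 2)) ^ 2 ∧ (η * ν / (2 * Real.log 2)) ^ 2 ≤ M
  hc : Continuous c ∧ ∀ s, ‖c s‖ ≤ t

/-- `k²` -/
noncomputable def Idx.kk {M : ℝ} (i : Idx M) : ℝ := (i.η * i.ν / (2 * Real.log 2)) ^ 2

/-- The filter `t → 0`. -/
noncomputable def fil (M : ℝ) : Filter (Idx M) := comap Idx.t (𝓝[>] 0)

theorem fil_of {M : ℝ} {P : Idx M → Prop} (t0 : ℝ) (h0 : 0 < t0) (h : ∀ i : Idx M, i.t ≤ t0 → P i) :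
    ∀ᶠ i in fil M, P i := by
  unfold fil
  rw [eventually_comap]
  filter_upwards [Ioc_mem_nhdsGT h0] with b hb i hi
  exact h i (by rw [hi]; exact hb.2)

theorem of_fil {M : ℝ} {P : Idx M → Prop} (h : ∀ᶠ i in fil M, P i) :
    ∃ t0 : ℝ, 0 < t0 ∧ t0 ≤ 1 ∧ ∀ i : Idx M, i.t ≤ t0 → P i := by
  unfold fil at h
  rw [eventually_comap] at h
  obtain ⟨u, hu, hsub⟩ := mem_nhdsGT_iff_exists_Ioc_subset.1 h
  refine ⟨min u 1, lt_min hu one_pos, min_le_right _ _, fun i hi => ?_⟩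
  refine hsub ⟨?_, hi.trans (min_le_left _ _)⟩ i rfl
  exact i.hδ.1.trans_le i.hδ.2

theorem log2_bounds : 0.69 < Real.log 2 ∧ Real.log 2 < 0.7 :=
  ⟨by linarith [Real.log_two_gt_d9], by linarith [Real.log_two_lt_d9]⟩

theorem Idx.etanu {M : ℝ} (i : Idx M) : 30 ≤ (i.η * i.ν) ^ 2 ∧ (i.η * i.ν) ^ 2 ≤ 2 * M := by
  obtain ⟨h1, h2⟩ := log2_bounds
  have hl : 0 < Real.log 2 := by linarith
  have e : (i.η * i.ν) ^ 2 = (2 * Real.log 2) ^ 2 * (i.η * i.ν / (2 * Real.log 2)) ^ 2 := by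
    field_simp
  have h3 := i.hk.1
  have h4 := i.hk.2
  have h5 : 1.9 ≤ (2 * Real.log 2) ^ 2 := by nlinarith
  have h6 : (2 * Real.log 2) ^ 2 ≤ 2 := by nlinarith
  rw [e]
  constructor
  · nlinarith
  · calc (2 * Real.log 2) ^ 2 * (i.η * i.ν / (2 * Real.log 2)) ^ 2 ≤ 2 * M := by gcongr

theorem Idx.nu_sq {M : ℝ} (i : Idx M) : 30 ≤ i.ν ^ 2 := by
  have h1 := i.etanu.1
  have h2 : i.η ^ 2 ≤ 1 := by
    have := i.hη.1
    have := i.hη.2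
    have := i.ht
    nlinarith
  rw [mul_pow] at h1
  nlinarith [sq_nonneg i.ν]

/-- The rotation argument for coercivity. -/
theorem coercive (T C0 : ℝ) (hT : 0 < T) (hC0 : 0 < C0) : ∃ (lam : ℂ) (c : ℝ), 0 < lam.re ∧
    lam.im < 0 ∧ 0 < c ∧ ∀ P : ℂ, ‖P‖ ≤ C0 → 1 / 2 ≤ P.re - T * P.im → ‖P - lam‖ ≤ ‖lam‖ - c := by
  set u0 : ℂ := 1 + T * Complex.I with hu0
  have hre : u0.re = 1 := by simp [hu0]
  have him : u0.im = T := by simp [hu0]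
  have hu0n : 0 < ‖u0‖ := norm_pos_iff.2 (fun h => by rw [h] at hre; simp at hre)
  set c0 : ℝ := 1 / (2 * ‖u0‖) with hc0
  have hc0p : 0 < c0 := by positivity
  set Λ : ℝ := C0 ^ 2 / c0 + c0 with hΛ
  have hΛp : 0 < Λ := by positivity
  set lam : ℂ := (Λ / ‖u0‖ : ℝ) * (starRingEnd ℂ) u0 with hlam
  have hln : ‖lam‖ = Λ := by
    rw [hlam, norm_mul, Complex.norm_real, Complex.norm_conj, Real.norm_of_nonneg (by positivity)]
    field_simp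
  refine ⟨lam, c0 / 2, ?_, ?_, by positivity, ?_⟩
  · rw [hlam, Complex.re_ofReal_mul, Complex.conj_re, hre, mul_one]
    positivity
  · rw [hlam, Complex.im_ofReal_mul, Complex.conj_im, him]
    have : 0 < Λ / ‖u0‖ * T := by positivity
    linarith
  · intro P hP hco
    rw [hln]
    have h1 : u0 * lam = ((Λ * ‖u0‖ : ℝ) : ℂ) := by
      rw [hlam, mul_left_comm, Complex.mul_conj, Complex.normSq_eq_norm_sq]
      rw [← Complex.ofReal_mul]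
      congr 1
      field_simp
    have h2 : ‖u0‖ * ‖P - lam‖ = ‖u0 * P - ((Λ * ‖u0‖ : ℝ) : ℂ)‖ := by
      rw [← norm_mul, mul_sub, h1]
    have h3 : (u0 * P).re = P.re - T * P.im := by
      rw [Complex.mul_re, hre, him]; ring
    have h4 : ‖u0 * P - ((Λ * ‖u0‖ : ℝ) : ℂ)‖ ^ 2 =
        (‖u0‖ * ‖P‖) ^ 2 - 2 * (Λ * ‖u0‖) * (P.re - T * P.im) + (Λ * ‖u0‖) ^ 2 := by
      rw [← norm_mul, ← Complex.normSq_eq_norm_sq, ← Complex.normSq_eq_norm_sq,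
        Complex.normSq_apply, Complex.normSq_apply]
      simp only [Complex.sub_re, Complex.ofReal_re, Complex.sub_im, Complex.ofReal_im]
      rw [← h3]
      ring
    have h5 : (‖u0‖ * ‖P - lam‖) ^ 2 ≤ (‖u0‖ * (Λ - c0 / 2)) ^ 2 := by
      rw [h2, h4]
      have h6 : C0 ^ 2 ≤ Λ * c0 := by
        rw [hΛ, add_mul, div_mul_cancel₀ _ hc0p.ne']
        nlinarith
      have h7 : ‖P‖ ^ 2 ≤ C0 ^ 2 := by gcongr
      have h8 : 2 * c0 * ‖u0‖ = 1 := by rw [hc0]; field_simp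
      have h9 : 2 * (Λ * ‖u0‖) * (1 / 2) ≤ 2 * (Λ * ‖u0‖) * (P.re - T * P.im) := by gcongr
      have h10 : (‖u0‖ * ‖P‖) ^ 2 ≤ ‖u0‖ ^ 2 * (Λ * c0) := by
        rw [mul_pow]; gcongr; linarith
      have h11 : Λ * ‖u0‖ = ‖u0‖ ^ 2 * (2 * Λ * c0) := by
        calc Λ * ‖u0‖ = Λ * ‖u0‖ * 1 := (mul_one _).symm
          _ = Λ * ‖u0‖ * (2 * c0 * ‖u0‖) := by rw [h8]
          _ = _ := by ring
      have h12 : (‖u0‖ * (Λ - c0 / 2)) ^ 2 = ‖u0‖ ^ 2 * (Λ ^ 2 - Λ * c0 + c0 ^ 2 / 4) := by ring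
      rw [h12]
      have h13 : 0 ≤ ‖u0‖ ^ 2 * (c0 ^ 2 / 4) := by positivity
      have h14 : (Λ * ‖u0‖) ^ 2 = ‖u0‖ ^ 2 * Λ ^ 2 := by ring
      rw [h14]
      nlinarith
    have h15 : 0 ≤ Λ - c0 / 2 := by
      have : 0 ≤ C0 ^ 2 / c0 := by positivity
      rw [hΛ]; linarith
    have h16 := abs_le_of_sq_le_sq' h5 (by positivity) |>.2
    exact le_of_mul_le_mul_left h16 hu0n

end Pool.Agent.K3h53.LT
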