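import Pool.Agent.K3h53.LT.Stage

/-!
# Existence of eigenvalues for the equation on the line, one bound state
-/

open MeasureTheory Filter Topology Set
open scoped ENNReal NNReal ContDiff

namespace Pool.Agent.K3h53.LT

open Pool.Agent.Helper41.CE

theorem stage_a (M M1 L : ℝ) (hL : 0 < L) (μ : ℂ) (r : ℝ) (hr : 0 < r) (hr4 : r ≤ 1 / 4)
    (hμ : 1 / 2 ≤ μ.im) (hM1 : ‖μ‖ ≤ M1) (hM : 16 ≤ M)
    (hu : ∀ z ∈ Metric.sphere μ r, IsUnit (1 + Rz z * mulop (Wst L)))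
    (hx : ∃ x : L2 1, x ≠ 0 ∧ x + Rz μ (mulop (Wst L) x) = 0) (hreg : St_reg) :
    ∃ t0 : ℝ, 0 < t0 ∧ t0 ≤ 1 ∧ ∀ i : Idx M, i.t ≤ t0 → ∃ z ∈ Metric.closedBall μ r,
      ∃ y y1 : ℝ → ℂ, Sol (fun s => ((aa i.η i.ν s : ℝ) : ℂ) +
        ((bb i.η s : ℝ) : ℂ) * (Wtr L i.δ s - ((i.kk : ℂ) + z)) + i.c s) y y1 := by
  have hM1' : 0 ≤ M1 := (norm_nonneg _).trans hM1
  set T : ℝ := 4 * (M + M1 + 2) with hT
  have hT0 : 0 < T := by positivity
  set C0 : ℝ := 2 * M + 4 * (M + M1 + 1) + 1 with hC0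
  have hC00 : 0 < C0 := by positivity
  obtain ⟨lam, c, hlr, hli, hc, hcoer⟩ := coercive T C0 hT0 hC00
  have hball : ∀ z ∈ Metric.closedBall μ r, 1 / 4 ≤ z.im ∧ ‖z‖ ≤ M1 + 1 := by
    intro z hz
    rw [Metric.mem_closedBall, dist_eq_norm] at hz
    have h1 := (Complex.abs_im_le_norm (z - μ)).trans hz
    rw [Complex.sub_im, abs_le] at h1
    constructor
    · linarith [h1.1]
    · have := norm_add_le (z - μ) μ
      rw [sub_add_cancel] at this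
      linarith
  set p : Idx M → E 1 → ℂ := fun i x =>
    ((aa i.η i.ν (x 0) - i.kk * bb i.η (x 0) : ℝ) : ℂ) + i.c (x 0) with hp
  set q : Idx M → E 1 → ℂ := fun i x => ((bb i.η (x 0) : ℝ) : ℂ) with hq
  have hkk : ∀ i : Idx M, 0 ≤ i.kk ∧ i.kk ≤ M := fun i => ⟨sq_nonneg _, i.hk.2⟩
  have hν : ∀ i : Idx M, 1 / 4 ≤ i.ν ^ 2 := fun i => by have := i.nu_sq; linarith
  have hη1 : ∀ i : Idx M, i.η ≤ 1 := fun i => i.hη.2.trans i.ht
  have hc1 : ∀ (i : Idx M) s, ‖i.c s‖ ≤ 1 := fun i s => (i.hc.2 s).trans i.ht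
  have hP : ∀ (i : Idx M) (z : ℂ), ‖z‖ ≤ M1 + 1 → ∀ x : E 1, ‖p i x - z * q i x‖ ≤ C0 := by
    intro i z hz x
    simp only [hp, hq]
    have a1 := aa_nonneg (η := i.η) (hν i) (x 0)
    have a2 := aa_le (η := i.η) (hν i) (x 0)
    have a3 := i.etanu.2
    have b1 := bb_nonneg i.η (x 0)
    have b2 := bb_le i.η (x 0)
    obtain ⟨k1, k2⟩ := hkk i
    calc ‖((aa i.η i.ν (x 0) - i.kk * bb i.η (x 0) : ℝ) : ℂ) + i.c (x 0) -
          z * ((bb i.η (x 0) : ℝ) : ℂ)‖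
        ≤ ‖((aa i.η i.ν (x 0) - i.kk * bb i.η (x 0) : ℝ) : ℂ)‖ + ‖i.c (x 0)‖ +
          ‖z * ((bb i.η (x 0) : ℝ) : ℂ)‖ := (norm_sub_le _ _).trans (by
            gcongr; exact norm_add_le _ _)
      _ ≤ (2 * M + 4 * M) + 1 + (M1 + 1) * 4 := by
          have e1 : ‖((aa i.η i.ν (x 0) - i.kk * bb i.η (x 0) : ℝ) : ℂ)‖ ≤ 2 * M + 4 * M := by
            rw [Complex.norm_real, Real.norm_eq_abs, abs_le]
            constructor <;> nlinarith
          have e2 : ‖z * ((bb i.η (x 0) : ℝ) : ℂ)‖ ≤ (M1 + 1) * 4 := by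
            rw [norm_mul, Complex.norm_real, Real.norm_of_nonneg b1]
            gcongr
          have e3 := hc1 i (x 0)
          linarith
      _ ≤ C0 := by rw [hC0]; linarith
  have hbm : ∀ᶠ i in fil M, Measurable (p i) ∧ Measurable (q i) ∧ BC (ww L i.δ i.η) ∧
      ∀ x, ‖p i x‖ ≤ C0 + 4 ∧ ‖q i x‖ ≤ C0 + 4 := by
    refine Eventually.of_forall fun i => ⟨?_, ?_, ww_BC L i.δ i.η i.hδ.1, fun x => ⟨?_, ?_⟩⟩
    · have h1 : Measurable fun x : E 1 => aa i.η i.ν (x 0) - i.kk * bb i.η (x 0) :=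
        ((aa_cont _ _).measurable.comp coord_meas).sub
          (((bb_cont _).measurable.comp coord_meas).const_mul _)
      exact (Complex.measurable_ofReal.comp h1).add (i.hc.1.measurable.comp coord_meas)
    · exact Complex.measurable_ofReal.comp ((bb_cont _).measurable.comp coord_meas)
    · have := hP i 0 (by simp; linarith) x
      simp only [zero_mul, sub_zero] at this
      linarith
    · simp only [hq]
      rw [Complex.norm_real, Real.norm_of_nonneg (bb_nonneg _ _)]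
      linarith [bb_le i.η (x 0)]
  have hco : ∀ᶠ i in fil M, ∀ z ∈ Metric.closedBall μ r, ∀ x,
      ‖p i x - z * q i x - lam‖ ≤ ‖lam‖ - c := by
    refine fil_of (1 / (2 * (1 + T))) (by positivity) fun i hi z hz x => ?_
    obtain ⟨hz1, hz2⟩ := hball z hz
    refine hcoer _ (hP i z hz2 x) ?_
    have a1 := aa_nonneg (η := i.η) (hν i) (x 0)
    have b1 := bb_nonneg i.η (x 0)
    have s1 := aa_add_bb (η := i.η) (ν := i.ν) i.hη.1 (hη1 i) (by have := i.etanu.1; linarith) (x 0)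
    obtain ⟨k1, k2⟩ := hkk i
    have hcn := i.hc.2 (x 0)
    have hcre := (Complex.abs_re_le_norm (i.c (x 0))).trans hcn
    have hcim := (Complex.abs_im_le_norm (i.c (x 0))).trans hcn
    rw [abs_le] at hcre hcim
    have hzre := (Complex.abs_re_le_norm z).trans hz2
    rw [abs_le] at hzre
    have eRe : (p i x - z * q i x).re = aa i.η i.ν (x 0) - i.kk * bb i.η (x 0) + (i.c (x 0)).re -
        z.re * bb i.η (x 0) := by
      simp [hp, hq]
    have eIm : (p i x - z * q i x).im = (i.c (x 0)).im - z.im * bb i.η (x 0) := by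
      simp [hp, hq]
    rw [eRe, eIm]
    have hti : i.t * (1 + T) ≤ 1 / 2 := by
      calc i.t * (1 + T) ≤ 1 / (2 * (1 + T)) * (1 + T) := by gcongr
        _ = 1 / 2 := by field_simp
    have h1 : T * (i.c (x 0)).im ≤ T * i.t := by gcongr; exact hcim.2
    have h2 : i.kk * bb i.η (x 0) ≤ M * bb i.η (x 0) := by gcongr
    have h3 : z.re * bb i.η (x 0) ≤ (M1 + 1) * bb i.η (x 0) := by gcongr; exact hzre.2
    have h4 : 1 / 4 * bb i.η (x 0) ≤ z.im * bb i.η (x 0) := by gcongr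
    have h5 : T * (1 / 4 * bb i.η (x 0)) ≤ T * (z.im * bb i.η (x 0)) := by gcongr
    have h6 : T * (1 / 4 * bb i.η (x 0)) = (M + M1 + 2) * bb i.η (x 0) := by rw [hT]; ring
    nlinarith [hcre.1]
  have hloc : ∀ N ε : ℝ, 0 < ε → ∀ᶠ i in fil M, ∀ x, ‖x‖ ≤ N → ‖p i x‖ ≤ ε ∧ ‖q i x - 1‖ ≤ ε := by
    intro N ε hε
    obtain ⟨η0, hη0, H⟩ := coeff_loc M (by linarith) N (ε / 2) (by positivity)
    refine fil_of (min η0 (ε / 2)) (by positivity) fun i hi x hx => ?_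
    rw [norm_E1] at hx
    obtain ⟨H1, H2⟩ := H i.η i.ν (x 0) i.hη.1 (i.hη.2.trans (hi.trans (min_le_left _ _))) i.hk.2 hx
    constructor
    · simp only [hp]
      refine (norm_add_le _ _).trans ?_
      rw [Complex.norm_real, Real.norm_eq_abs]
      have h1 : |aa i.η i.ν (x 0) - i.kk * bb i.η (x 0)| ≤ ε / 2 := H1
      have h2 := (i.hc.2 (x 0)).trans (hi.trans (min_le_right _ _))
      linarith
    · simp only [hq]
      have h1 : ((bb i.η (x 0) : ℝ) : ℂ) - 1 = ((bb i.η (x 0) - 1 : ℝ) : ℂ) := by push_cast; ring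
      rw [h1, Complex.norm_real, Real.norm_eq_abs]
      linarith
  have hw : ∀ ε : ℝ, 0 < ε → ∀ᶠ i in fil M, ∫ x, ‖ww L i.δ i.η x - Wst L x‖ ^ 2 ≤ ε := by
    intro ε hε
    obtain ⟨t, ht, H⟩ := ww_L2 L hL ε hε
    exact fil_of t ht fun i hi =>
      H i.δ i.η i.hδ.1 (i.hδ.2.trans hi) i.hη.1 (i.hη.2.trans hi)
  have key := ol (fil M) μ r hr (fun z hz => by have := (hball z hz).1; linarith) lam hlr hli c hc
    p q (fun i => ww L i.δ i.η) (Wst L) (Wst_BC L) (C0 + 4) (by linarith) hbm hco hloc hw hu hx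
  obtain ⟨t0, h0, h1, H⟩ := of_fil key
  refine ⟨t0, h0, h1, fun i hi => ?_⟩
  obtain ⟨z, hz, g, hg0, hg⟩ := H i hi
  refine ⟨z, hz, ?_⟩
  refine hreg lam _ g hlr hli ?_ ?_ hg0 ?_
  · have := aa_cont i.η i.ν
    have := bb_cont i.η
    have := Wtr_cont L (δ := i.δ)
    have := i.hc.1
    fun_prop
  · obtain ⟨hz1, hz2⟩ := hball z hz
    refine ⟨2 * M + 4 * (1 + (M + (M1 + 1))) + 1, fun s => ?_⟩
    have a1 := aa_nonneg (η := i.η) (hν i) s
    have a2 := aa_le (η := i.η) (hν i) s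
    have a3 := i.etanu.2
    have b1 := bb_nonneg i.η s
    have b2 := bb_le i.η s
    obtain ⟨k1, k2⟩ := hkk i
    refine (norm_add_le _ _).trans (add_le_add ((norm_add_le _ _).trans (add_le_add ?_ ?_)) (hc1 i s))
    · rw [Complex.norm_real, Real.norm_of_nonneg a1]; linarith
    · rw [norm_mul, Complex.norm_real, Real.norm_of_nonneg b1]
      have h3 : ‖Wtr L i.δ s - ((i.kk : ℂ) + z)‖ ≤ 1 + (M + (M1 + 1)) := by
        refine (norm_sub_le _ _).trans (add_le_add (Wtr_norm _ _ _) ((norm_add_le _ _).trans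
          (add_le_add ?_ hz2)))
        rw [Complex.norm_real, Real.norm_of_nonneg k1]
        exact k2
      gcongr
  · have e : (fun x : E 1 => ((aa i.η i.ν (x 0) : ℝ) : ℂ) +
        ((bb i.η (x 0) : ℝ) : ℂ) * (Wtr L i.δ (x 0) - ((i.kk : ℂ) + z)) + i.c (x 0) - lam) =
        fun x => p i x - z * q i x + ww L i.δ i.η x - lam := by
      funext x
      simp only [hp, hq, ww]
      push_cast
      ring
    rw [e]
    exact hg

/-- The limit of the coefficients at `-∞`. -/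
theorem left_bound (M M1 : ℝ) (hM : 0 ≤ M) (hM1 : 0 ≤ M1) (L : ℝ) (i : Idx M) (z : ℂ)
    (hz : ‖z‖ ≤ M1 + 1) : ∃ s0 : ℝ, ∀ s ≤ s0, (20 / 21 * (i.η * i.ν)) ^ 2 ≤
      (((aa i.η i.ν s : ℝ) : ℂ) + ((bb i.η s : ℝ) : ℂ) * (Wtr L i.δ s - ((i.kk : ℂ) + z)) +
        i.c s).re := by
  have hη := i.hη.1
  have hev : ∀ᶠ s in atBot, Real.exp (i.η * s) ≤ 1 / (300 + 8 * (M + M1 + 1)) := by
    have h1 : Tendsto (fun s : ℝ => Real.exp (i.η * s)) atBot (𝓝 0) :=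
      Real.tendsto_exp_atBot.comp (tendsto_id.const_mul_atBot hη)
    exact (h1.eventually (gt_mem_nhds (show (0 : ℝ) < 1 / (300 + 8 * (M + M1 + 1)) by positivity))).mono
      fun s hs => hs.le
  obtain ⟨s0, hs0⟩ := eventually_atBot.1 (hev.and (eventually_le_atBot (-i.δ)))
  refine ⟨s0, fun s hs => ?_⟩
  obtain ⟨h1, h2⟩ := hs0 s hs
  have hW : Wtr L i.δ s = 0 := Wtr_zero i.hδ.1 (Or.inl h2)
  rw [hW]
  have eRe : (((aa i.η i.ν s : ℝ) : ℂ) + ((bb i.η s : ℝ) : ℂ) * (0 - ((i.kk : ℂ) + z)) +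
        i.c s).re = aa i.η i.ν s - bb i.η s * (i.kk + z.re) + (i.c s).re := by
    simp
    ring
  rw [eRe]
  set X := Real.exp (i.η * s) with hX
  have hX0 : 0 < X := Real.exp_pos _
  have hX1 : X ≤ 1 / 300 := h1.trans (by
    apply one_div_le_one_div_of_le (by norm_num)
    nlinarith)
  have hX2 : X * (8 * (M + M1 + 1)) ≤ 1 := by
    have h3 : X * (300 + 8 * (M + M1 + 1)) ≤ 1 := by
      rw [← le_div_iff₀ (by positivity)]
      exact h1
    nlinarith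
  have hsg : sgm (i.η * s) ≤ X := by
    unfold sgm
    rw [div_le_iff₀ (by positivity)]
    nlinarith
  have hsg0 := sgm_pos (i.η * s)
  have hbb : bb i.η s ≤ 4 * X := by
    unfold bb
    nlinarith
  have hbb0 := bb_nonneg i.η s
  have hratio : 1 - X ≤ sgm (i.η * s) / spl (i.η * s) := by
    rw [le_div_iff₀ (spl_pos _)]
    have h3 := spl_le_exp (i.η * s)
    have h4 : (1 - X) * X ≤ sgm (i.η * s) := by
      unfold sgm
      rw [le_div_iff₀ (by positivity)]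
      nlinarith [mul_pos hX0 hX0, mul_pos (mul_pos hX0 hX0) hX0]
    calc (1 - X) * spl (i.η * s) ≤ (1 - X) * X := by
          apply mul_le_mul_of_nonneg_left h3; linarith
      _ ≤ _ := h4
  have hν := i.nu_sq
  have h5 : (1 - X) ^ 2 ≤ (sgm (i.η * s) / spl (i.η * s)) ^ 2 := by
    apply pow_le_pow_left₀ _ hratio
    linarith
  have h6 : (1 - 3 * X) * (i.η * i.ν) ^ 2 ≤ aa i.η i.ν s := by
    unfold aa
    rw [mul_pow]
    have h7 : (1 - 3 * X) * i.ν ^ 2 ≤ (sgm (i.η * s) / spl (i.η * s)) ^ 2 * (i.ν ^ 2 - 1 / 4) +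
        (1 - sgm (i.η * s) ^ 2) / 4 := by
      have h8 : (1 - X) ^ 2 * (i.ν ^ 2 - 1 / 4) ≤
          (sgm (i.η * s) / spl (i.η * s)) ^ 2 * (i.ν ^ 2 - 1 / 4) := by
        apply mul_le_mul_of_nonneg_right h5; linarith
      have h9 : sgm (i.η * s) ^ 2 ≤ X ^ 2 := by gcongr
      nlinarith [mul_pos hX0 hX0]
    calc (1 - 3 * X) * (i.η ^ 2 * i.ν ^ 2) = i.η ^ 2 * ((1 - 3 * X) * i.ν ^ 2) := by ring
      _ ≤ _ := mul_le_mul_of_nonneg_left h7 (sq_nonneg _)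
  have hen := i.etanu.1
  have hzre := (Complex.abs_re_le_norm z).trans hz
  rw [abs_le] at hzre
  have hkk : i.kk ≤ M := i.hk.2
  have hkk0 : 0 ≤ i.kk := sq_nonneg _
  have hcre := (Complex.abs_re_le_norm (i.c s)).trans ((i.hc.2 s).trans i.ht)
  rw [abs_le] at hcre
  have h10 : bb i.η s * (i.kk + z.re) ≤ 1 := by
    calc bb i.η s * (i.kk + z.re) ≤ bb i.η s * (M + (M1 + 1)) := by
          apply mul_le_mul_of_nonneg_left _ hbb0; linarith [hzre.2]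
      _ ≤ 4 * X * (M + (M1 + 1)) := by gcongr
      _ ≤ 1 := by nlinarith
  have h11 : (1 - 3 * X) * (i.η * i.ν) ^ 2 ≥ 99 / 100 * (i.η * i.ν) ^ 2 := by
    apply mul_le_mul_of_nonneg_right _ (sq_nonneg _)
    linarith
  have h12 : (20 / 21 * (i.η * i.ν)) ^ 2 = 400 / 441 * (i.η * i.ν) ^ 2 := by ring
  rw [h12]
  nlinarith [hcre.1]

/-- Stage theorem for one bound state, with decay. -/
theorem stage_b (M M1 L : ℝ) (hL : 0 < L) (μ : ℂ) (r : ℝ) (hr : 0 < r) (hr4 : r ≤ 1 / 4)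
    (hμ : 1 / 2 ≤ μ.im) (hM1 : ‖μ‖ ≤ M1) (hM : 16 ≤ M)
    (hu : ∀ z ∈ Metric.sphere μ r, IsUnit (1 + Rz z * mulop (Wst L)))
    (hx : ∃ x : L2 1, x ≠ 0 ∧ x + Rz μ (mulop (Wst L) x) = 0) (hreg : St_reg) (hdec : St_dec) :
    ∃ t0 : ℝ, 0 < t0 ∧ t0 ≤ 1 ∧ ∀ i : Idx M, 0 < i.ν → i.t ≤ t0 → ∃ z ∈ Metric.closedBall μ r,
      ∃ y y1 : ℝ → ℂ, Sol (fun s => ((aa i.η i.ν s : ℝ) : ℂ) +
        ((bb i.η s : ℝ) : ℂ) * (Wtr L i.δ s - ((i.kk : ℂ) + z)) + i.c s) y y1 ∧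
        ∃ C s0 : ℝ, ∀ s ≤ s0, ‖y s‖ ≤ C * Real.exp (2 / 3 * (i.η * i.ν) * s) ∧
          ‖y1 s‖ ≤ C * Real.exp (2 / 3 * (i.η * i.ν) * s) := by
  have hM1' : 0 ≤ M1 := (norm_nonneg _).trans hM1
  obtain ⟨t0, h0, h1, H⟩ := stage_a M M1 L hL μ r hr hr4 hμ hM1 hM hu hx hreg
  refine ⟨t0, h0, h1, fun i hν hi => ?_⟩
  obtain ⟨z, hz, y, y1, hS⟩ := H i hi
  refine ⟨z, hz, y, y1, hS, ?_⟩
  have hzn : ‖z‖ ≤ M1 + 1 := by
    rw [Metric.mem_closedBall, dist_eq_norm] at hz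
    have := norm_add_le (z - μ) μ
    rw [sub_add_cancel] at this
    linarith
  obtain ⟨s0, hs0⟩ := left_bound M M1 (by linarith) hM1' L i z hzn
  have hκ : 0 < 20 / 21 * (i.η * i.ν) := by
    have := i.hη.1
    positivity
  have hbd : ∃ C : ℝ, ∀ s, ‖((aa i.η i.ν s : ℝ) : ℂ) +
        ((bb i.η s : ℝ) : ℂ) * (Wtr L i.δ s - ((i.kk : ℂ) + z)) + i.c s‖ ≤ C := by
    refine ⟨2 * M + 4 * (1 + (M + (M1 + 1))) + 1, fun s => ?_⟩
    have hν2 : 1 / 4 ≤ i.ν ^ 2 := by have := i.nu_sq; linarith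
    have a1 := aa_nonneg (η := i.η) hν2 s
    have a2 := aa_le (η := i.η) hν2 s
    have a3 := i.etanu.2
    have b1 := bb_nonneg i.η s
    have b2 := bb_le i.η s
    have k1 : 0 ≤ i.kk := sq_nonneg _
    have k2 : i.kk ≤ M := i.hk.2
    refine (norm_add_le _ _).trans (add_le_add ((norm_add_le _ _).trans (add_le_add ?_ ?_))
      ((i.hc.2 s).trans i.ht))
    · rw [Complex.norm_real, Real.norm_of_nonneg a1]; linarith
    · rw [norm_mul, Complex.norm_real, Real.norm_of_nonneg b1]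
      have h3 : ‖Wtr L i.δ s - ((i.kk : ℂ) + z)‖ ≤ 1 + (M + (M1 + 1)) := by
        refine (norm_sub_le _ _).trans (add_le_add (Wtr_norm _ _ _) ((norm_add_le _ _).trans
          (add_le_add ?_ hzn)))
        rw [Complex.norm_real, Real.norm_of_nonneg k1]
        exact k2
      gcongr
  obtain ⟨C, hC⟩ := hdec _ y y1 _ s0 hS hκ hbd hs0
  refine ⟨C, s0, fun s hs => ?_⟩
  have e : 7 / 10 * (20 / 21 * (i.η * i.ν)) = 2 / 3 * (i.η * i.ν) := by ring
  have := hC s hs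
  rw [e] at this
  exact this

end Pool.Agent.K3h53.LT
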