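import Pool.Agent.K3h53.LT.Stage1

/-!
# Existence of eigenvalues for the equation on the line, all bound states
-/

open MeasureTheory Filter Topology Set
open scoped ENNReal NNReal ContDiff

namespace Pool.Agent.K3h53.LT

open Pool.Agent.Helper41.CE

/-- The bound for `k²`. -/
noncomputable def MM (J : ℕ) : ℝ := (8 * 2 ^ J) ^ 2

theorem stage_c (J : ℕ) (homega : St_omega) (hstep : St_step) (hreg : St_reg) (hdec : St_dec) :
    ∃ (L t r : ℝ) (Ns : ℕ → Finset ℕ) (μ : ℕ → ℂ), 1 ≤ L ∧ 0 < t ∧ t ≤ 1 ∧ 0 < r ∧ r ≤ 1 / 4 ∧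
      (∀ j < J, L * 2 ^ j / 4 ≤ (Ns j).card) ∧
      (∀ j < J, ∀ n ∈ Ns j, 1 / 2 ≤ (μ n).im ∧ 0 < (μ n).re ∧ ‖μ n‖ ≤ (8 * 2 ^ j) ^ 2) ∧
      (∀ j < J, ∀ n ∈ Ns j, ∀ m ∈ Ns j, n ≠ m → 2 * r < ‖μ n - μ m‖) ∧
      ∀ i : Idx (MM J), 0 < i.ν → i.t ≤ t → ∀ j < J, ∀ n ∈ Ns j,
        ∃ z ∈ Metric.closedBall (μ n) r, ∃ y y1 : ℝ → ℂ, Sol (fun s => ((aa i.η i.ν s : ℝ) : ℂ) +
          ((bb i.η s : ℝ) : ℂ) * (Wtr L i.δ s - ((i.kk : ℂ) + z)) + i.c s) y y1 ∧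
          ∃ C s0 : ℝ, ∀ s ≤ s0, ‖y s‖ ≤ C * Real.exp (2 / 3 * (i.η * i.ν) * s) ∧
            ‖y1 s‖ ≤ C * Real.exp (2 / 3 * (i.η * i.ν) * s) := by
  classical
  set θM : ℝ := 8 * 2 ^ J with hθM
  have hθM8 : 8 ≤ θM := by
    have : (1 : ℝ) ≤ 2 ^ J := one_le_pow₀ (by norm_num)
    rw [hθM]; linarith
  set L : ℝ := 8 * (θM + 1) ^ 2 + 1000 with hL
  have hL1000 : 1000 ≤ L := by rw [hL]; nlinarith [sq_nonneg (θM + 1)]
  have hL0 : 0 < L := by linarith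
  have hLM : 8 * (θM + 1) ^ 2 ≤ L := by rw [hL]; linarith
  have hpi0 := Real.pi_pos
  set θ : ℕ → ℝ := fun n => (Real.pi + 4 * Real.pi * n) / L with hθ
  have hθL : ∀ n, θ n * L = Real.pi + 4 * Real.pi * n := fun n => by
    simp only [hθ]; field_simp
  set lo : ℕ → ℝ := fun j => ((4 * 2 ^ j) * L - Real.pi) / (4 * Real.pi) with hlo
  set hi : ℕ → ℝ := fun j => ((8 * 2 ^ j) * L - Real.pi) / (4 * Real.pi) with hhi
  set Ns : ℕ → Finset ℕ := fun j => Finset.Ico ⌈lo j⌉₊ ⌈hi j⌉₊ with hNs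
  have hNsθ : ∀ j, ∀ n ∈ Ns j, 4 * 2 ^ j ≤ θ n ∧ θ n ≤ 8 * 2 ^ j := by
    intro j n hn
    simp only [hNs, Finset.mem_Ico] at hn
    have h1 : lo j ≤ n := Nat.ceil_le.1 hn.1
    have h2 : (n : ℝ) < hi j := Nat.lt_ceil.1 hn.2
    simp only [hlo] at h1
    simp only [hhi] at h2
    rw [div_le_iff₀ (by positivity)] at h1
    rw [lt_div_iff₀ (by positivity)] at h2
    have h3 := hθL n
    constructor
    · have : (4 * 2 ^ j) * L ≤ θ n * L := by rw [h3]; linarith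
      exact le_of_mul_le_mul_right this hL0
    · have : θ n * L ≤ (8 * 2 ^ j) * L := by rw [h3]; linarith
      exact le_of_mul_le_mul_right this hL0
  have hpow : ∀ j < J, (2 : ℝ) ^ j ≤ 2 ^ J := fun j hj => pow_le_pow_right₀ (by norm_num) hj.le
  have hpow1 : ∀ j : ℕ, (1 : ℝ) ≤ 2 ^ j := fun j => one_le_pow₀ (by norm_num)
  -- the points `w n`
  have hw : ∀ n, ∃ w : ℂ, 4 ≤ θ n → θ n ≤ θM → ‖w - θ n‖ ≤ 1 ∧
      w = θ n + Complex.I / w - 4 / L * Complex.I * Complex.log w ∧ 0 < w.im := by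
    intro n
    by_cases h : 4 ≤ θ n ∧ θ n ≤ θM
    · obtain ⟨w, hw⟩ := homega.1 (θ n) L h.1 (by
        refine le_trans ?_ hLM
        have : θ n + 1 ≤ θM + 1 := by linarith [h.2]
        have h0 : 0 ≤ θ n + 1 := by linarith [h.1]
        gcongr)
      exact ⟨w, fun _ _ => hw⟩
    · exact ⟨0, fun h1 h2 => absurd ⟨h1, h2⟩ h⟩
  choose w hw using hw
  set μ : ℕ → ℂ := fun n => mu (w n) with hμ
  set U : Finset ℕ := (Finset.range J).biUnion Ns with hU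
  have hUmem : ∀ j < J, ∀ n ∈ Ns j, n ∈ U := fun j hj n hn =>
    Finset.mem_biUnion.2 ⟨j, Finset.mem_range.2 hj, hn⟩
  have hUθ : ∀ n ∈ U, 4 ≤ θ n ∧ θ n ≤ θM := by
    intro n hn
    obtain ⟨j, hj, hn⟩ := Finset.mem_biUnion.1 hn
    obtain ⟨h1, h2⟩ := hNsθ j n hn
    have h3 := hpow j (Finset.mem_range.1 hj)
    have h4 := hpow1 j
    constructor
    · linarith
    · rw [hθM]; linarith
  have hstepn : ∀ n ∈ U, 1 / 2 ≤ (μ n).im ∧ 0 < (μ n).re ∧ ‖μ n‖ ≤ θ n ^ 2 ∧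
      ∃ x : L2 1, x ≠ 0 ∧ x + Rz (μ n) (mulop (Wst L) x) = 0 := by
    intro n hn
    obtain ⟨h1, h2⟩ := hUθ n hn
    obtain ⟨a, b, c⟩ := hw n h1 h2
    refine hstep L (θ n) n (w n) h1 ?_ (hθL n) a b c
    refine le_trans ?_ hLM
    have h0 : 0 ≤ θ n + 1 := by linarith
    gcongr
  have hinj : ∀ n ∈ U, ∀ m ∈ U, n ≠ m → μ n ≠ μ m := by
    intro n hn m hm hnm hmu
    obtain ⟨h1, h2⟩ := hUθ n hn
    obtain ⟨a, b, c⟩ := hw n h1 h2
    obtain ⟨h1', h2'⟩ := hUθ m hm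
    obtain ⟨a', b', c'⟩ := hw m h1' h2'
    have hre : ∀ (x : ℂ) (y : ℝ), 4 ≤ y → ‖x - y‖ ≤ 1 → 1 < ‖x‖ ∧ 0 < x.re := by
      intro x y hy hxy
      have h3 := (Complex.abs_re_le_norm (x - y)).trans hxy
      rw [Complex.sub_re, Complex.ofReal_re, abs_le] at h3
      have h4 := (le_abs_self _).trans (Complex.abs_re_le_norm x)
      constructor <;> linarith [h3.1]
    obtain ⟨p1, p2⟩ := hre _ _ h1 a
    obtain ⟨p1', p2'⟩ := hre _ _ h1' a'
    have heq := homega.2 (w n) (w m) p1 p1' p2 p2' c c' hmu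
    have hθeq : (θ n : ℂ) = θ m := by
      have e1 : (θ n : ℂ) = w n - Complex.I / w n + 4 / L * Complex.I * Complex.log (w n) := by
        linear_combination -b
      have e2 : (θ m : ℂ) = w m - Complex.I / w m + 4 / L * Complex.I * Complex.log (w m) := by
        linear_combination -b'
      rw [e1, e2, heq]
    have hθeq' : θ n = θ m := by exact_mod_cast hθeq
    apply hnm
    have h5 : Real.pi + 4 * Real.pi * n = Real.pi + 4 * Real.pi * m := by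
      rw [← hθL n, ← hθL m, hθeq']
    have h6 : (n : ℝ) = m := by
      have h7 : 4 * Real.pi * (n : ℝ) = 4 * Real.pi * m := by linarith
      exact mul_left_cancel₀ (by positivity) h7
    exact_mod_cast h6
  -- the radius
  have hrad : ∀ᶠ r in 𝓝[>] (0 : ℝ), ∀ n ∈ U,
      (∀ z ∈ Metric.sphere (μ n) r, IsUnit (1 + Rz z * mulop (Wst L))) ∧
        ∀ m ∈ U, n ≠ m → 2 * r < ‖μ n - μ m‖ := by
    rw [eventually_all_finset]
    intro n hn
    refine Filter.Eventually.and ?_ ?_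
    · have h1 := Zs_isolated (Wst_BC L) 1 (z0 := μ n) (by linarith [(hstepn n hn).1])
      rw [eventually_nhdsWithin_iff, Metric.eventually_nhds_iff] at h1
      obtain ⟨ε, hε, hH⟩ := h1
      filter_upwards [Ioo_mem_nhdsGT hε] with r hr z hz
      rw [Metric.mem_sphere] at hz
      have h2 := hH (y := z) (by rw [hz]; exact hr.2) (by
        intro h0
        rw [Set.mem_singleton_iff] at h0
        rw [h0, dist_self] at hz
        linarith [hr.1])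
      simpa using h2
    · rw [eventually_all_finset]
      intro m hm
      by_cases hnm : n = m
      · exact Eventually.of_forall fun r h => absurd hnm h
      · have h3 : 0 < ‖μ n - μ m‖ := norm_pos_iff.2 (sub_ne_zero.2 (hinj n hn m hm hnm))
        filter_upwards [Ioo_mem_nhdsGT (show 0 < ‖μ n - μ m‖ / 2 by positivity)] with r hr _
        linarith [hr.2]
  obtain ⟨r, hr1, hr2⟩ := (hrad.and (Ioc_mem_nhdsGT (show (0 : ℝ) < 1 / 4 by norm_num))).exists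
  -- the thresholds
  have hMM16 : 16 ≤ MM J := by
    unfold MM
    rw [← hθM]
    nlinarith
  have hst : ∀ᶠ i in fil (MM J), ∀ n ∈ U, 0 < i.ν → ∃ z ∈ Metric.closedBall (μ n) r,
      ∃ y y1 : ℝ → ℂ, Sol (fun s => ((aa i.η i.ν s : ℝ) : ℂ) +
        ((bb i.η s : ℝ) : ℂ) * (Wtr L i.δ s - ((i.kk : ℂ) + z)) + i.c s) y y1 ∧
        ∃ C s0 : ℝ, ∀ s ≤ s0, ‖y s‖ ≤ C * Real.exp (2 / 3 * (i.η * i.ν) * s) ∧
          ‖y1 s‖ ≤ C * Real.exp (2 / 3 * (i.η * i.ν) * s) := by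
    rw [eventually_all_finset]
    intro n hn
    obtain ⟨h1, h2, h3, h4⟩ := hstepn n hn
    obtain ⟨t0, ht0, _, H⟩ := stage_b (MM J) ‖μ n‖ L hL0 (μ n) r hr2.1 hr2.2 h1 le_rfl hMM16
      (hr1 n hn).1 h4 hreg hdec
    exact fil_of t0 ht0 fun i hi hν => H i hν hi
  obtain ⟨t, ht0, ht1, H⟩ := of_fil hst
  refine ⟨L, t, r, Ns, μ, by linarith, ht0, ht1, hr2.1, hr2.2, ?_, ?_, ?_, ?_⟩
  · intro j hj
    have h1 : (Ns j).card = ⌈hi j⌉₊ - ⌈lo j⌉₊ := by simp [hNs]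
    have h2 : hi j ≤ ⌈hi j⌉₊ := Nat.le_ceil _
    have hlo0 : 0 ≤ lo j := by
      simp only [hlo]
      apply div_nonneg _ (by positivity)
      have := hpow1 j
      have hpi4 : Real.pi ≤ 4 := Real.pi_le_four
      nlinarith
    have h3 : (⌈lo j⌉₊ : ℝ) < lo j + 1 := Nat.ceil_lt_add_one hlo0
    have h4 : hi j - lo j = 2 ^ j * L / Real.pi := by
      simp only [hlo, hhi]
      field_simp
      ring
    have h5 : ⌈lo j⌉₊ ≤ ⌈hi j⌉₊ := by
      apply Nat.ceil_le_ceil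
      have : 0 ≤ 2 ^ j * L / Real.pi := by positivity
      linarith
    rw [h1, Nat.cast_sub h5]
    have h6 : L * 2 ^ j / 4 + 1 ≤ 2 ^ j * L / Real.pi := by
      rw [le_div_iff₀ hpi0]
      have hpi : Real.pi < 3.15 := Real.pi_lt_d2
      have hX : 1000 ≤ L * 2 ^ j := by nlinarith [hpow1 j]
      nlinarith
    linarith
  · intro j hj n hn
    obtain ⟨h1, h2, h3, -⟩ := hstepn n (hUmem j hj n hn)
    refine ⟨h1, h2, h3.trans ?_⟩
    obtain ⟨h4, h5⟩ := hNsθ j n hn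
    have h6 : 0 ≤ θ n := by have := hpow1 j; linarith
    gcongr
  · intro j hj n hn m hm hnm
    exact (hr1 n (hUmem j hj n hn)).2 m (hUmem j hj m hm) hnm
  · intro i hν hi j hj n hn
    exact H i hi n (hUmem j hj n hn) hν

end Pool.Agent.K3h53.LT
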