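import Pool.Agent.K3h53.LT.Fn
import Pool.Agent.Helper41.CE.CU01

/-!
# The step potential and its continuous approximations
-/

open MeasureTheory Filter Topology Set
open scoped ENNReal NNReal ContDiff

namespace Pool.Agent.K3h53.LT

open Pool.Agent.Helper41.CE

theorem norm_E1 (x : E 1) : ‖x‖ = |x 0| := by
  rw [EuclideanSpace.norm_eq]
  simp [Real.sqrt_sq_eq_abs]

/-- The coordinate on `E 1` is measure preserving. -/
theorem coordMP : MeasurePreserving (fun x : E 1 => x 0) volume volume := by
  have h1 := PiLp.volume_preserving_ofLp (Fin 1)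
  have h2 := volume_preserving_funUnique (Fin 1) ℝ
  exact h2.comp h1

theorem coord_meas : Measurable (fun x : E 1 => x 0) := coordMP.measurable

theorem vol_coord {S : Set ℝ} (hS : MeasurableSet S) :
    volume {x : E 1 | x 0 ∈ S} = volume S := coordMP.measure_preimage hS.nullMeasurableSet

theorem Wst_BC (L : ℝ) : BC (Wst L) := by
  refine ⟨?_, ⟨1, fun x => ?_⟩, |L|, fun x hx => ?_⟩
  · unfold Wst
    exact Measurable.ite ((measurableSet_le measurable_const coord_meas).inter
      (measurableSet_le coord_meas measurable_const)) measurable_const measurable_const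
  · unfold Wst
    split_ifs <;> simp
  · unfold Wst
    rw [norm_E1] at hx
    rw [if_neg]
    rintro ⟨h1, h2⟩
    rw [abs_of_nonneg h1] at hx
    linarith [le_abs_self L]

theorem Wtr_cont (L : ℝ) {δ : ℝ} : Continuous (Wtr L δ) := by
  unfold Wtr
  fun_prop

theorem Wtr_norm (L δ s : ℝ) : ‖Wtr L δ s‖ ≤ 1 := by
  unfold Wtr
  rw [norm_mul, Complex.norm_I, mul_one, Complex.norm_real, Real.norm_of_nonneg (le_max_left _ _)]
  exact max_le zero_le_one (min_le_left _ _)

theorem Wtr_one {L δ s : ℝ} (hδ : 0 < δ) (h0 : 0 ≤ s) (h1 : s ≤ L) : Wtr L δ s = Complex.I := by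
  unfold Wtr
  have h2 : 1 ≤ min (1 + s / δ) (1 + (L - s) / δ) := by
    apply le_min
    · have : 0 ≤ s / δ := by positivity
      linarith
    · have : 0 ≤ (L - s) / δ := div_nonneg (by linarith) hδ.le
      linarith
  rw [min_eq_left h2, max_eq_right zero_le_one]
  simp

theorem Wtr_zero {L δ s : ℝ} (hδ : 0 < δ) (h : s ≤ -δ ∨ L + δ ≤ s) : Wtr L δ s = 0 := by
  unfold Wtr
  have h2 : min (1 + s / δ) (1 + (L - s) / δ) ≤ 0 := by
    rcases h with h | h
    · refine (min_le_left _ _).trans ?_
      have : s / δ ≤ -1 := by rw [div_le_iff₀ hδ]; linarith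
      linarith
    · refine (min_le_right _ _).trans ?_
      have : (L - s) / δ ≤ -1 := by rw [div_le_iff₀ hδ]; linarith
      linarith
  rw [max_eq_left ((min_le_right _ _).trans h2)]
  simp

/-- the window function -/
noncomputable def ww (L δ η : ℝ) (x : E 1) : ℂ := ((bb η (x 0) : ℝ) : ℂ) * Wtr L δ (x 0)

theorem ww_BC (L δ η : ℝ) (hδ : 0 < δ) : BC (ww L δ η) := by
  refine ⟨?_, ⟨4, fun x => ?_⟩, |L| + δ, fun x hx => ?_⟩
  · unfold ww
    have h1 : Measurable fun x : E 1 => bb η (x 0) := (bb_cont η).measurable.comp coord_meas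
    have h2 : Measurable fun x : E 1 => Wtr L δ (x 0) := (Wtr_cont L).measurable.comp coord_meas
    exact (Complex.measurable_ofReal.comp h1).mul h2
  · unfold ww
    rw [norm_mul, Complex.norm_real, Real.norm_of_nonneg (bb_nonneg _ _)]
    calc bb η (x 0) * ‖Wtr L δ (x 0)‖ ≤ 4 * 1 :=
          mul_le_mul (bb_le _ _) (Wtr_norm _ _ _) (norm_nonneg _) (by norm_num)
      _ = 4 := by norm_num
  · unfold ww
    rw [norm_E1] at hx
    rw [Wtr_zero hδ, mul_zero]
    rcases le_or_gt 0 (x 0) with h | h
    · right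
      rw [abs_of_nonneg h] at hx
      linarith [le_abs_self L]
    · left
      rw [abs_of_neg h] at hx
      linarith [abs_nonneg L]

theorem ww_L2 (L : ℝ) (hL : 0 < L) (ε : ℝ) (hε : 0 < ε) : ∃ t : ℝ, 0 < t ∧ ∀ δ η : ℝ, 0 < δ →
    δ ≤ t → 0 < η → η ≤ t → ∫ x : E 1, ‖ww L δ η x - Wst L x‖ ^ 2 ≤ ε := by
  obtain ⟨η0, hη0, H⟩ := coeff_loc 1 one_pos L (min 1 (ε / (2 * L))) (by positivity)
  refine ⟨min η0 (ε / 200), by positivity, fun δ η hδ hδt hη hηt => ?_⟩
  have hb : ∀ s : ℝ, |s| ≤ L → |bb η s - 1| ≤ min 1 (ε / (2 * L)) := fun s hs =>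
    (H η 0 s hη (hηt.trans (min_le_left _ _)) (by simp) hs).2
  set S1 : Set (E 1) := {x | x 0 ∈ Icc 0 L} with hS1
  set S2 : Set (E 1) := {x | x 0 ∈ Icc (-δ) 0} with hS2
  set S3 : Set (E 1) := {x | x 0 ∈ Icc L (L + δ)} with hS3
  have m1 : MeasurableSet S1 := coord_meas measurableSet_Icc
  have m2 : MeasurableSet S2 := coord_meas measurableSet_Icc
  have m3 : MeasurableSet S3 := coord_meas measurableSet_Icc
  have v1 : volume S1 = ENNReal.ofReal (L - 0) := by
    rw [hS1, vol_coord measurableSet_Icc, Real.volume_Icc]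
  have v2 : volume S2 = ENNReal.ofReal (0 - -δ) := by
    rw [hS2, vol_coord measurableSet_Icc, Real.volume_Icc]
  have v3 : volume S3 = ENNReal.ofReal (L + δ - L) := by
    rw [hS3, vol_coord measurableSet_Icc, Real.volume_Icc]
  have i1 : Integrable (S1.indicator fun _ => ε / (2 * L)) (volume : Measure (E 1)) :=
    (integrable_indicator_iff m1).2 (integrableOn_const (by rw [v1]; exact ENNReal.ofReal_ne_top))
  have i2 : Integrable (S2.indicator fun _ => (25 : ℝ)) (volume : Measure (E 1)) :=
    (integrable_indicator_iff m2).2 (integrableOn_const (by rw [v2]; exact ENNReal.ofReal_ne_top))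
  have i3 : Integrable (S3.indicator fun _ => (25 : ℝ)) (volume : Measure (E 1)) :=
    (integrable_indicator_iff m3).2 (integrableOn_const (by rw [v3]; exact ENNReal.ofReal_ne_top))
  have hle : ∀ x : E 1, ‖ww L δ η x - Wst L x‖ ^ 2 ≤
      S1.indicator (fun _ => ε / (2 * L)) x + S2.indicator (fun _ => (25 : ℝ)) x +
        S3.indicator (fun _ => (25 : ℝ)) x := by
    intro x
    have n1 : 0 ≤ S1.indicator (fun _ => ε / (2 * L)) x := indicator_nonneg (fun _ _ => by positivity) _
    have n2 : 0 ≤ S2.indicator (fun _ => (25 : ℝ)) x := indicator_nonneg (fun _ _ => by positivity) _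
    have n3 : 0 ≤ S3.indicator (fun _ => (25 : ℝ)) x := indicator_nonneg (fun _ _ => by positivity) _
    have crude : ‖ww L δ η x - Wst L x‖ ^ 2 ≤ 25 := by
      have h1 : ‖ww L δ η x - Wst L x‖ ≤ 4 + 1 := by
        refine (norm_sub_le _ _).trans (add_le_add ?_ ?_)
        · unfold ww
          rw [norm_mul, Complex.norm_real, Real.norm_of_nonneg (bb_nonneg _ _)]
          calc bb η (x 0) * ‖Wtr L δ (x 0)‖ ≤ 4 * 1 :=
                mul_le_mul (bb_le _ _) (Wtr_norm _ _ _) (norm_nonneg _) (by norm_num)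
            _ = 4 := by norm_num
        · unfold Wst
          split_ifs <;> simp
      nlinarith [norm_nonneg (ww L δ η x - Wst L x)]
    by_cases hx1 : x ∈ S1
    · rw [indicator_of_mem hx1]
      have hx1' : 0 ≤ x 0 ∧ x 0 ≤ L := hx1
      have h2 : ww L δ η x - Wst L x = ((bb η (x 0) - 1 : ℝ) : ℂ) * Complex.I := by
        unfold ww Wst
        rw [if_pos hx1', Wtr_one hδ hx1'.1 hx1'.2]
        push_cast
        ring
      have h3 : ‖ww L δ η x - Wst L x‖ ^ 2 ≤ ε / (2 * L) := by
        rw [h2, norm_mul, Complex.norm_I, mul_one, Complex.norm_real, Real.norm_eq_abs]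
        have h4 := hb (x 0) (by rw [abs_of_nonneg hx1'.1]; exact hx1'.2)
        have h5 := h4.trans (min_le_left _ _)
        have h6 := h4.trans (min_le_right _ _)
        nlinarith [abs_nonneg (bb η (x 0) - 1)]
      linarith
    · by_cases hx2 : x ∈ S2
      · rw [indicator_of_mem hx2]
        linarith
      · by_cases hx3 : x ∈ S3
        · rw [indicator_of_mem hx3]
          linarith
        · have h0 : ww L δ η x - Wst L x = 0 := by
            have hx1' : ¬ (0 ≤ x 0 ∧ x 0 ≤ L) := hx1
            have hx2' : ¬ (-δ ≤ x 0 ∧ x 0 ≤ 0) := hx2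
            have hx3' : ¬ (L ≤ x 0 ∧ x 0 ≤ L + δ) := hx3
            unfold ww Wst
            rw [if_neg hx1', Wtr_zero hδ]
            · simp
            · rcases le_or_gt 0 (x 0) with h | h
              · right
                have h4 : L < x 0 := by
                  by_contra hc
                  exact hx1' ⟨h, not_lt.1 hc⟩
                by_contra hc
                exact hx3' ⟨h4.le, (not_le.1 hc).le⟩
              · left
                by_contra hc
                exact hx2' ⟨(not_le.1 hc).le, h.le⟩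
          rw [h0, norm_zero]
          norm_num
          linarith
  have hint := integral_mono_of_nonneg (ae_of_all _ fun x => sq_nonneg _) ((i1.add i2).add i3)
    (ae_of_all _ hle)
  refine hint.trans ?_
  rw [integral_add' (i1.add i2) i3, integral_add' i1 i2, integral_indicator m1,
    integral_indicator m2, integral_indicator m3, setIntegral_const, setIntegral_const,
    setIntegral_const]
  simp only [Measure.real, v1, v2, v3, smul_eq_mul]
  rw [ENNReal.toReal_ofReal (by linarith), ENNReal.toReal_ofReal (by linarith),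
    ENNReal.toReal_ofReal (by linarith)]
  have h7 : δ ≤ ε / 200 := hδt.trans (min_le_right _ _)
  have h8 : (L - 0) * (ε / (2 * L)) = ε / 2 := by
    field_simp
    ring
  rw [h8]
  linarith

end Pool.Agent.K3h53.LT
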